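import Pool.Agent.Lib.MP_b0a977_co.Mid.Tree
import Pool.Agent.Lib.MP_b0a977_co.H62.Levels

/-!
# The lower bound in the middle range
-/

set_option autoImplicit false

namespace Pool.Agent.Lib.MP_b0a977_co.Mid

open Finset

/-- The thresholds. -/
noncomputable def t4 (T : ℝ) (i : ℕ) : ℕ := ⌊T / 4 ^ i⌋₊

/-- The number of halvings above the level `h`. -/
noncomputable def r4 (T : ℝ) (J h : ℕ) : ℕ := ((range J).filter fun i => h ≤ t4 T i).card

section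

variable {T : ℝ} (hT : 0 ≤ T) (J : ℕ)

include hT

lemma t4_anti (i : ℕ) : t4 T (i + 1) ≤ t4 T i := by
  refine Nat.floor_le_floor ?_
  refine div_le_div_of_nonneg_left hT (by positivity) ?_
  exact pow_le_pow_right₀ (by norm_num) (Nat.le_succ i)

lemma t4_le (i : ℕ) : (t4 T i : ℝ) ≤ T / 4 ^ i := Nat.floor_le (by positivity)

omit hT in
lemma t4_ge (i : ℕ) : T / 4 ^ i - 1 ≤ (t4 T i : ℝ) := by
  have := Nat.lt_floor_add_one (T / 4 ^ i)
  rw [t4]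
  linarith

omit hT in
lemma r4_anti (h : ℕ) : r4 T J (h + 1) ≤ r4 T J h := by
  refine card_le_card ?_
  intro i
  simp only [mem_filter]
  rintro ⟨h1, h2⟩
  exact ⟨h1, by omega⟩

lemma t4_le_zero (i : ℕ) : t4 T i ≤ t4 T 0 := by
  induction i with
  | zero => exact le_rfl
  | succ i ih => exact (t4_anti hT i).trans ih

lemma sum_xA (l : ℕ) (hl : t4 T 0 ≤ l) :
    ∑ h ∈ range l, ((h : ℝ) + 1) * (2 ^ r4 T J (h + 1) - 1) ≤ 4 / 7 * T ^ 2 + T := by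
  have h2 : ∀ h ∈ range l, ((h : ℝ) + 1) * ((2 : ℝ) ^ r4 T J (h + 1) - 1) =
      ∑ i ∈ range J, 2 ^ i * (if h + 1 ≤ t4 T i then ((h + 1 : ℕ) : ℝ) else 0) := by
    intro h _
    rw [r4, H62.two_pow_card _ (fun i hi => hi.trans (t4_anti hT i)), add_sub_cancel_left, mul_sum]
    refine sum_congr rfl fun i _ => ?_
    split_ifs
    · push_cast; ring
    · ring
  rw [sum_congr rfl h2, sum_comm]
  have h3 : ∀ i ∈ range J, ∑ h ∈ range l, (2 : ℝ) ^ i *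
      (if h + 1 ≤ t4 T i then ((h + 1 : ℕ) : ℝ) else 0) ≤
      T ^ 2 / 2 * (1 / 8) ^ i + T / 2 * (1 / 2) ^ i := by
    intro i _
    rw [← mul_sum, H62.sum_le_T _ _ ((t4_le_zero hT i).trans hl)]
    have h4 := t4_le hT i
    have h5 : (0 : ℝ) ≤ t4 T i := Nat.cast_nonneg _
    have h6 : (t4 T i : ℝ) * (t4 T i + 1) ≤ (T / 4 ^ i) * (T / 4 ^ i + 1) := by
      refine mul_le_mul h4 (by linarith) (by positivity) (by positivity)
    have h7 : (2 : ℝ) ^ i * ((T / 4 ^ i) * (T / 4 ^ i + 1) / 2) =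
        T ^ 2 / 2 * (1 / 8) ^ i + T / 2 * (1 / 2) ^ i := by
      have e8 : (8 : ℝ) ^ i = 2 ^ i * 4 ^ i := by rw [← mul_pow]; norm_num
      have e4 : (4 : ℝ) ^ i = 2 ^ i * 2 ^ i := by rw [← mul_pow]; norm_num
      rw [one_div_pow, one_div_pow, e8, e4]
      field_simp
    rw [← h7]
    refine mul_le_mul_of_nonneg_left ?_ (by positivity)
    linarith
  refine (sum_le_sum h3).trans ?_
  rw [sum_add_distrib, ← mul_sum, ← mul_sum, H62.geom8, H62.geom2]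
  have h9 : T ^ 2 / 2 * (8 / 7 * (1 - (1 / 8) ^ J)) ≤ T ^ 2 / 2 * (8 / 7) := by
    refine mul_le_mul_of_nonneg_left ?_ (by positivity)
    have : (0 : ℝ) ≤ (1 / 8) ^ J := by positivity
    linarith
  have h10 : T / 2 * (2 * (1 - (1 / 2) ^ J)) ≤ T / 2 * 2 := by
    refine mul_le_mul_of_nonneg_left ?_ (by positivity)
    have : (0 : ℝ) ≤ (1 / 2) ^ J := by positivity
    linarith
  linarith

lemma sum_x (l : ℕ) (hl : t4 T 0 ≤ l) :
    ∑ h ∈ range l, ((2 : ℝ) ^ r4 T J (h + 1) - 1) ≤ 2 * T := by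
  have h2 : ∀ h ∈ range l, ((2 : ℝ) ^ r4 T J (h + 1) - 1) =
      ∑ i ∈ range J, 2 ^ i * (if h + 1 ≤ t4 T i then (1 : ℝ) else 0) := by
    intro h _
    rw [r4, H62.two_pow_card _ (fun i hi => hi.trans (t4_anti hT i)), add_sub_cancel_left]
    refine sum_congr rfl fun i _ => ?_
    split_ifs
    · ring
    · ring
  rw [sum_congr rfl h2, sum_comm]
  have h3 : ∀ i ∈ range J, ∑ h ∈ range l, (2 : ℝ) ^ i *
      (if h + 1 ≤ t4 T i then (1 : ℝ) else 0) ≤ T * (1 / 2) ^ i := by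
    intro i _
    rw [← mul_sum, H62.sum_one_T _ _ ((t4_le_zero hT i).trans hl)]
    have h4 := t4_le hT i
    have h7 : (2 : ℝ) ^ i * (T / 4 ^ i) = T * (1 / 2) ^ i := by
      have e4 : (4 : ℝ) ^ i = 2 ^ i * 2 ^ i := by rw [← mul_pow]; norm_num
      rw [one_div_pow, e4]
      field_simp
    rw [← h7]
    exact mul_le_mul_of_nonneg_left h4 (by positivity)
  refine (sum_le_sum h3).trans ?_
  rw [← mul_sum, H62.geom2]
  have : (0 : ℝ) ≤ (1 / 2) ^ J := by positivity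
  nlinarith

lemma sum_xB (l : ℕ) (hl : t4 T 0 ≤ l) :
    4 / 7 * T * (1 - (1 / 8) ^ J) - 1 ≤ ∑ h ∈ range l, (1 - 1 / (2 : ℝ) ^ r4 T J (h + 1)) := by
  have h2 : ∀ h ∈ range l, 1 - 1 / (2 : ℝ) ^ r4 T J (h + 1) =
      ∑ i ∈ range J, 1 / 2 ^ (i + 1) * (if h + 1 ≤ t4 T i then (1 : ℝ) else 0) := by
    intro h _
    rw [r4, H62.half_pow_card _ (fun i hi => hi.trans (t4_anti hT i)), sub_sub_cancel]
    refine sum_congr rfl fun i _ => ?_
    split_ifs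
    · ring
    · ring
  rw [sum_congr rfl h2, sum_comm]
  have h3 : ∀ i ∈ range J, T / 2 * (1 / 8) ^ i - 1 / 2 * (1 / 2) ^ i ≤
      ∑ h ∈ range l, 1 / 2 ^ (i + 1) * (if h + 1 ≤ t4 T i then (1 : ℝ) else 0) := by
    intro i _
    rw [← mul_sum, H62.sum_one_T _ _ ((t4_le_zero hT i).trans hl)]
    have h4 := t4_ge (T := T) i
    have h7 : 1 / (2 : ℝ) ^ (i + 1) * (T / 4 ^ i - 1) =
        T / 2 * (1 / 8) ^ i - 1 / 2 * (1 / 2) ^ i := by
      have e8 : (8 : ℝ) ^ i = 2 ^ i * 4 ^ i := by rw [← mul_pow]; norm_num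
      rw [one_div_pow, one_div_pow, e8, pow_succ]
      field_simp
    rw [← h7]
    exact mul_le_mul_of_nonneg_left h4 (by positivity)
  refine le_trans ?_ (sum_le_sum h3)
  rw [sum_sub_distrib, ← mul_sum, ← mul_sum, H62.geom8, H62.geom2]
  have h9 : (0 : ℝ) ≤ (1 / 2) ^ J := by positivity
  linarith

end

/-- closed form -/
lemma sum_quad (a : ℝ) (H : ℕ) : ∑ h ∈ range H, (a + 2 * (h : ℝ)) ^ 2 =
    H * a ^ 2 + 2 * a * (H * (H - 1)) + 2 / 3 * ((H - 1) * H * (2 * H - 1)) := by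
  induction H with
  | zero => simp
  | succ H ih =>
    rw [sum_range_succ, ih]
    push_cast
    ring

/-- closed form -/
lemma sum_lin (H : ℕ) : ∑ h ∈ range H, ((h : ℝ) + 1) = H * (H + 1) / 2 := by
  induction H with
  | zero => simp
  | succ H ih =>
    rw [sum_range_succ, ih]
    push_cast
    ring

/-- two binary trees of depth about `e² / (8 d)` -/
theorem lower2 (d e J : ℕ) (hd : 3 ≤ d) (he : 4 * e ≤ d) :
    ∃ G : SimpleGraph (Fin (d + 1 + e)), G.Connected ∧ G.diam = d ∧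
      (d * (d + 1) * (d + 2) / 3 + e * (d * (d + 1)) + d * e ^ 2 / 2
        + e ^ 4 / (28 * d) * (1 - 2 * (1 / 8) ^ J - (e + 1) / d) - 2 * e ^ 2 - d : ℝ)
      ≤ ∑ x, ∑ y, (G.dist x y : ℝ) := by
  obtain ⟨k, ε, hε, hk, hdk⟩ : ∃ k ε : ℕ, ε ≤ 1 ∧ 1 ≤ k ∧ d = 2 * k + 1 + ε :=
    ⟨(d - 1) / 2, (d - 1) % 2, by omega, by omega, by omega⟩
  have hd0 : (0 : ℝ) < d := by
    have : 0 < d := by omega
    exact_mod_cast this
  have her : 4 * (e : ℝ) ≤ d := by exact_mod_cast he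
  have he0 : (0 : ℝ) ≤ e := by positivity
  set T : ℝ := (e : ℝ) ^ 2 / (8 * d) with hTdef
  have hT : 0 ≤ T := by positivity
  have hTd : T * (8 * d) = (e : ℝ) ^ 2 := by rw [hTdef]; field_simp
  have hTe : 32 * T ≤ e := by
    rw [hTdef, mul_div_assoc', div_le_iff₀ (by positivity)]
    nlinarith
  have hkr : (1 : ℝ) ≤ k := by exact_mod_cast hk
  have hεr : (ε : ℝ) ≤ 1 := by exact_mod_cast hε
  have hdr : (d : ℝ) = 2 * k + 1 + ε := by exact_mod_cast hdk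
  have ht0 : t4 T 0 ≤ k - 1 := by
    have h1 : t4 T 0 < k := by
      rw [t4, Nat.floor_lt (by positivity)]
      simp only [pow_zero, div_one]
      linarith
    omega
  set r := r4 T J with hr
  have hq : ∀ h, (qB r h : ℝ) = 2 + 2 * (2 ^ r h - 1) := by
    intro h
    unfold qB
    push_cast
    ring
  set x : ℕ → ℝ := fun h => (2 : ℝ) ^ r h - 1 with hx
  have hx0 : ∀ h, 0 ≤ x h := fun h => by
    have : (1 : ℝ) ≤ 2 ^ r h := one_le_pow₀ (by norm_num)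
    simp only [hx]; linarith
  have hX := sum_x hT J k (by omega)
  have hXA := sum_xA hT J k (by omega)
  have hXB1 := sum_xB hT J (k - 1 + ε) (by omega)
  have hXB2 := sum_xB hT J k (by omega)
  rw [← hr] at hX hXA hXB1 hXB2
  have hsumq : (∑ j ∈ range k, qB r (j + 1) : ℕ) = (2 * k + 2 * ∑ j ∈ range k, x (j + 1) : ℝ) := by
    push_cast
    rw [sum_congr rfl fun j _ => hq (j + 1), sum_add_distrib, sum_const, card_range, nsmul_eq_mul,
      ← mul_sum]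
    ring
  have hXe : 2 * ∑ j ∈ range k, x (j + 1) ≤ e := by
    simp only [hx]
    linarith
  have hN : ∑ j ∈ range k, qB r (j + 1) ≤ 2 * k + e := by
    have : ((∑ j ∈ range k, qB r (j + 1) : ℕ) : ℝ) ≤ ((2 * k + e : ℕ) : ℝ) := by
      rw [hsumq]; push_cast; linarith
    exact_mod_cast this
  obtain ⟨N₀, hN₀⟩ : ∃ N₀, d + 1 + e = N₀ + ∑ j ∈ range k, qB r (j + 1) + ε :=
    ⟨d + 1 + e - ε - ∑ j ∈ range k, qB r (j + 1), by omega⟩
  have hN2 : 2 ≤ N₀ := by omega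
  have hN₀r : (N₀ : ℝ) = e + 2 - 2 * ∑ j ∈ range k, x (j + 1) := by
    have : ((d + 1 + e : ℕ) : ℝ) = ((N₀ + ∑ j ∈ range k, qB r (j + 1) + ε : ℕ) : ℝ) := by
      exact_mod_cast hN₀
    rw [Nat.cast_add (N₀ + _), Nat.cast_add N₀, hsumq] at this
    push_cast at this
    rw [hdr] at this
    linarith
  obtain ⟨G, hG1, hG2, hG3⟩ := tree (d + 1 + e) k ε N₀ r hk hε (fun h => r4_anti J h) hN2 hN₀
  refine ⟨G, hG1, by rw [hG2, hdk], ?_⟩
  rw [← hdk] at hG3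
  -- the cells
  have htot : ∀ h, h < k → (N₀ : ℝ) + ∑ j ∈ range (h + 1), (qB r (j + 1) : ℝ) ≤ e + 4 + 2 * h := by
    intro h hh
    rw [hN₀r, sum_congr rfl fun j _ => hq (j + 1), sum_add_distrib, sum_const, card_range,
      nsmul_eq_mul, ← mul_sum]
    have : ∑ j ∈ range (h + 1), x (j + 1) ≤ ∑ j ∈ range k, x (j + 1) :=
      sum_le_sum_of_subset_of_nonneg (range_subset_range.2 (by omega)) fun j _ _ => hx0 _
    push_cast
    simp only [hx] at this ⊢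
    linarith
  have htot0 : ∀ h, 0 ≤ (N₀ : ℝ) + ∑ j ∈ range (h + 1), (qB r (j + 1) : ℝ) := fun h => by positivity
  have hQ : ∀ h, h < k → ((N₀ : ℝ) + ∑ j ∈ range (h + 1), (qB r (j + 1) : ℝ)) ^ 2
      / qB r (h + 1) + qB r (h + 1) / 4 ≤ (e + 4 + 2 * (h : ℝ)) ^ 2 / 2 + 1 / 2 + x (h + 1) / 2
        - e ^ 2 / 2 * (1 - 1 / 2 ^ r (h + 1)) := by
    intro h hh
    have h1 : ((N₀ : ℝ) + ∑ j ∈ range (h + 1), (qB r (j + 1) : ℝ)) ^ 2 ≤ (e + 4 + 2 * (h : ℝ)) ^ 2 :=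
      pow_le_pow_left₀ (htot0 h) (htot h hh) 2
    have hp : (1 : ℝ) ≤ 2 ^ r (h + 1) := one_le_pow₀ (by norm_num)
    have h2 : (qB r (h + 1) : ℝ) = 2 * 2 ^ r (h + 1) := by rw [hq]; ring
    have h3 : ((N₀ : ℝ) + ∑ j ∈ range (h + 1), (qB r (j + 1) : ℝ)) ^ 2 / qB r (h + 1) ≤
        (e + 4 + 2 * (h : ℝ)) ^ 2 / (2 * 2 ^ r (h + 1)) := by
      rw [h2]; gcongr
    have h4 : (e + 4 + 2 * (h : ℝ)) ^ 2 / (2 * 2 ^ r (h + 1)) = (e + 4 + 2 * (h : ℝ)) ^ 2 / 2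
        - (e + 4 + 2 * (h : ℝ)) ^ 2 / 2 * (1 - 1 / 2 ^ r (h + 1)) := by
      field_simp
      ring
    have h5 : 0 ≤ 1 - 1 / (2 : ℝ) ^ r (h + 1) := by
      have : 1 / (2 : ℝ) ^ r (h + 1) ≤ 1 := by
        rw [div_le_one (by positivity)]; exact hp
      linarith
    have h6 : (e : ℝ) ^ 2 ≤ (e + 4 + 2 * (h : ℝ)) ^ 2 := by
      have : (0 : ℝ) ≤ h := by positivity
      exact pow_le_pow_left₀ he0 (by linarith) 2
    have h7 : (e : ℝ) ^ 2 / 2 * (1 - 1 / 2 ^ r (h + 1)) ≤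
        (e + 4 + 2 * (h : ℝ)) ^ 2 / 2 * (1 - 1 / 2 ^ r (h + 1)) :=
      mul_le_mul_of_nonneg_right (by linarith) h5
    have h8 : (qB r (h + 1) : ℝ) / 4 = 1 / 2 + x (h + 1) / 2 := by
      rw [hq]; simp only [hx]; ring
    linarith
  have hQs : ∀ H, H ≤ k → 4 / 7 * T * (1 - (1 / 8) ^ J) - 1 ≤
      ∑ h ∈ range H, (1 - 1 / (2 : ℝ) ^ r (h + 1)) →
      ∑ h ∈ range H, (((N₀ : ℝ) + ∑ j ∈ range (h + 1), (qB r (j + 1) : ℝ)) ^ 2
      / qB r (h + 1) + qB r (h + 1) / 4) ≤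
      (H * ((e : ℝ) + 4) ^ 2 + 2 * ((e : ℝ) + 4) * (H * (H - 1))
        + 2 / 3 * ((H - 1) * H * (2 * H - 1))) / 2 + H / 2 + T
        - e ^ 2 / 2 * (4 / 7 * T * (1 - (1 / 8) ^ J) - 1) := by
    intro H hH hB
    refine (sum_le_sum fun h hh => hQ h (by rw [mem_range] at hh; omega)).trans ?_
    rw [sum_sub_distrib, sum_add_distrib, sum_add_distrib, ← sum_div, ← sum_div, ← mul_sum,
      sum_quad, sum_const, card_range, nsmul_eq_mul]
    have h1 : ∑ j ∈ range H, x (j + 1) ≤ ∑ j ∈ range k, x (j + 1) :=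
      sum_le_sum_of_subset_of_nonneg (range_subset_range.2 hH) fun j _ _ => hx0 _
    have h2 : ∑ j ∈ range k, x (j + 1) ≤ 2 * T := hX
    have h4 : ∑ j ∈ range H, x (j + 1) / 2 = (∑ j ∈ range H, x (j + 1)) / 2 := by rw [sum_div]
    rw [h4]
    have h3 : (e : ℝ) ^ 2 / 2 * (4 / 7 * T * (1 - (1 / 8) ^ J) - 1) ≤
        e ^ 2 / 2 * ∑ h ∈ range H, (1 - 1 / (2 : ℝ) ^ r (h + 1)) :=
      mul_le_mul_of_nonneg_left hB (by positivity)
    linarith
  have hc1 := hQs (k - 1 + ε) (by omega) hXB1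
  have hc2 := hQs k le_rfl hXB2
  have hlev : ∑ j ∈ range k, ((j : ℝ) + 1) * (qB r (j + 1) : ℝ) ≤ k * (k + 1)
      + 2 * (4 / 7 * T ^ 2 + T) := by
    have : ∀ j ∈ range k, ((j : ℝ) + 1) * (qB r (j + 1) : ℝ) =
        2 * ((j : ℝ) + 1) + 2 * (((j : ℝ) + 1) * (2 ^ r (j + 1) - 1)) := by
      intro j _
      rw [hq]; ring
    rw [sum_congr rfl this, sum_add_distrib, ← mul_sum, ← mul_sum, sum_lin]
    linarith
  have hN₀e : (N₀ : ℝ) ≤ e + 2 := by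
    rw [hN₀r]
    have : 0 ≤ ∑ j ∈ range k, x (j + 1) := sum_nonneg fun j _ => hx0 _
    linarith
  set n : ℝ := ((d + 1 + e : ℕ) : ℝ) with hn
  have hnr : n = d + 1 + e := by rw [hn]; push_cast; ring
  have hn0 : 0 ≤ n := by positivity
  have hΘ : ∑ x : Fin (d + 1 + e), ∑ y : Fin (d + 1 + e), ((d : ℝ) - G.dist x y) =
      n ^ 2 * d - ∑ x, ∑ y, (G.dist x y : ℝ) := by
    simp only [sum_sub_distrib, sum_const, card_univ, Fintype.card_fin, nsmul_eq_mul, ← hn]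
    ring
  rw [hΘ] at hG3
  have hlev2 := mul_le_mul_of_nonneg_left hlev (by positivity : 0 ≤ 2 * n)
  -- the arithmetic
  have hkε : ((k - 1 + ε : ℕ) : ℝ) = k - 1 + ε := by
    push_cast [Nat.cast_sub hk]; ring
  rw [hkε] at hc1
  have hgain : (e : ℝ) ^ 4 / (28 * d) * (1 - 2 * (1 / 8) ^ J - (e + 1) / d) =
      e ^ 2 * (4 / 7 * T * (1 - (1 / 8) ^ J)) - 4 * n * (4 / 7 * T ^ 2) := by
    rw [hnr, hTdef]
    field_simp
    ring
  have hnT : 4 * n * T ≤ e ^ 2 := by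
    rw [hnr]
    have h1 : (d + 1 + (e : ℝ)) ≤ 2 * d := by
      have : (3 : ℝ) ≤ d := by exact_mod_cast hd
      linarith
    nlinarith
  have hTe2 : 2 * T ≤ d / 2 := by linarith
  have hkd : 2 * (k : ℝ) ≤ d := by rw [hdr]; have : (0:ℝ) ≤ ε := by positivity
                                   linarith
  rw [hgain]
  rcases Nat.le_one_iff_eq_zero_or_eq_one.1 hε with h0 | h0
  · rw [h0] at hc1 hdr hG3
    simp only [Nat.cast_zero, add_zero, zero_mul] at hc1 hdr hG3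
    have hk2 : (k : ℝ) = (d - 1) / 2 := by linarith
    rw [hnr] at *
    rw [hk2] at hc1 hc2 hlev2
    rw [hk2] at hkd
    nlinarith
  · rw [h0] at hc1 hdr hG3
    simp only [Nat.cast_one, one_mul] at hc1 hdr hG3
    have hk2 : (k : ℝ) = (d - 2) / 2 := by linarith
    rw [hnr] at *
    rw [hk2] at hc1 hc2 hlev2 hG3
    rw [hk2] at hkd
    nlinarith

end Pool.Agent.Lib.MP_b0a977_co.Mid
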