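import Pool.Agent.Lib.MP_b0a977_co.Sharp.Pot

/-!
# The potential of the middle range

`U D m x = (D/2) W(m/√D, x)` is the least cost `∫ ∑ (m_c² + D y) dy` of a class of mass `m` at
height `x`; `Psi = min (U, s x m)` is also valid for classes that start late.
-/

namespace Pool.Agent.Lib.MP_b0a977_co.Mid

open Finset Real Pool.Agent.Lib.MP_b0a977_co.Sharp

noncomputable section

lemma ff_anti_I {s t : ℝ} (hs : 0 ≤ s) (hst : s ≤ t) (ht : t ^ 2 ≤ 2) :
    ff t - 2 * t ^ 2 ≤ ff s - 2 * s ^ 2 := by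
  have h1 : s ^ 2 ≤ 2 := (pow_le_pow_left₀ hs hst 2).trans ht
  rw [ff_of_le ht, ff_of_le h1]
  unfold f1
  have := pow_le_pow_left₀ hs hst 4
  linarith

lemma ff_anti_II {s t : ℝ} (hs : 0 ≤ s) (hs2 : 2 ≤ s ^ 2) (hst : s ≤ t) (ht : t ^ 2 ≤ 4 * qq) :
    ff t - 2 * t ^ 2 ≤ ff s - 2 * s ^ 2 := by
  have h2 := pow_le_pow_left₀ hs hst 2
  have h4 := pow_le_pow_left₀ hs hst 4
  rw [ff_of_mid (hs2.trans h2) ht, ff_of_mid hs2 (h2.trans ht)]
  unfold f1
  have e1 : (t / 2) ^ 4 = t ^ 4 / 16 := by ring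
  have e2 : (s / 2) ^ 4 = s ^ 4 / 16 := by ring
  have e3 : (t / 2) ^ 2 = t ^ 2 / 4 := by ring
  have e4 : (s / 2) ^ 2 = s ^ 2 / 4 := by ring
  rw [e1, e2, e3, e4]
  linarith

lemma ff_anti_III {s t : ℝ} (hs : 0 ≤ s) (hs2 : 4 * qq ≤ s ^ 2) (hst : s ≤ t) :
    ff t - 2 * t ^ 2 ≤ ff s - 2 * s ^ 2 := by
  have h2 := pow_le_pow_left₀ hs hst 2
  rw [ff_of_ge (hs.trans hst) (hs2.trans h2), ff_of_ge hs hs2]
  have hq := qq_bd
  have hC := Cs_lt
  have h1 : 1 ≤ s := by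
    by_contra hcon
    have : s ^ 2 ≤ 1 := by nlinarith [not_le.1 hcon]
    linarith [hq.1]
  nlinarith [mul_nonneg (sub_nonneg.2 hst) (by linarith : (0 : ℝ) ≤ 2 * (s + t) - Cs)]

lemma ff_anti {s t : ℝ} (hs : 0 ≤ s) (hst : s ≤ t) :
    ff t - 2 * t ^ 2 ≤ ff s - 2 * s ^ 2 := by
  have hq := qq_bd
  have hx := x0_sq
  have hx0 := x0_pos
  set a : ℝ := √2 with ha
  have ha2 : a ^ 2 = 2 := Real.sq_sqrt (by norm_num)
  have ha0 : 0 ≤ a := Real.sqrt_nonneg 2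
  set b : ℝ := 2 * x0 with hb
  have hb2 : b ^ 2 = 4 * qq := by rw [hb, mul_pow, hx]; norm_num
  have hb0 : 0 ≤ b := by positivity
  have hab : a ≤ b := by
    refine le_of_sq_le_sq ?_ hb0
    rw [ha2, hb2]; linarith [hq.1]
  have sq_le : ∀ {u v : ℝ}, 0 ≤ u → u ≤ v → u ^ 2 ≤ v ^ 2 := fun hu h => pow_le_pow_left₀ hu h 2
  -- from b on
  have s3 : ∀ s t, b ≤ s → s ≤ t → ff t - 2 * t ^ 2 ≤ ff s - 2 * s ^ 2 := by
    intro s t h1 h2
    exact ff_anti_III (hb0.trans h1) (hb2 ▸ sq_le hb0 h1) h2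
  have s2 : ∀ s t, a ≤ s → s ≤ t → ff t - 2 * t ^ 2 ≤ ff s - 2 * s ^ 2 := by
    intro s t h1 h2
    rcases le_total b s with h3 | h3
    · exact s3 s t h3 h2
    · rcases le_total t b with h4 | h4
      · exact ff_anti_II (ha0.trans h1) (ha2 ▸ sq_le ha0 h1) h2
          (hb2 ▸ sq_le (ha0.trans (h1.trans h2)) h4)
      · exact (s3 b t le_rfl h4).trans
          (ff_anti_II (ha0.trans h1) (ha2 ▸ sq_le ha0 h1) h3 hb2.le)
  rcases le_total a s with h3 | h3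
  · exact s2 s t h3 hst
  · rcases le_total t a with h4 | h4
    · exact ff_anti_I hs hst (ha2 ▸ sq_le (hs.trans hst) h4)
    · exact (s2 a t le_rfl h4).trans (ff_anti_I hs h3 ha2.le)

/-- the potential -/
def U (D m x : ℝ) : ℝ := D / 2 * WW (m / √D) x

lemma U_zero (D m : ℝ) : U D m 0 = 0 := by unfold U; rw [WW_zero, mul_zero]

lemma U_nonneg {D m x : ℝ} (hD : 0 < D) (hm : 0 ≤ m) (hx : 0 ≤ x) : 0 ≤ U D m x := by
  unfold U
  have h1 := WW_ge (m / √D) x hx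
  have h2 : 0 ≤ Cs * (m / √D) * (x * √x) := by
    have := Cs_pos
    positivity
  exact mul_nonneg (by linarith) (h2.trans h1)

lemma U_add {D a b x : ℝ} (hD : 0 < D) (ha : 0 ≤ a) (hb : 0 ≤ b) :
    U D (a + b) x ≤ U D a x + U D b x := by
  unfold U
  rw [← mul_add, add_div]
  refine mul_le_mul_of_nonneg_left ?_ (by linarith)
  exact WW_add (by positivity) (by positivity)

lemma U_step {D m x : ℝ} (hD : 0 < D) (hm : 0 < m) (hx : 0 ≤ x) :
    U D m (x + 1) ≤ U D m x + m ^ 2 + D * (x + 1 / 2) := by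
  have hs : 0 < √D := Real.sqrt_pos.2 hD
  have hss : √D ^ 2 = D := Real.sq_sqrt hD.le
  have h1 := WW_step (m := m / √D) (h := x) (h' := x + 1) (by positivity) hx (by linarith)
  have h2 : (m / √D) ^ 2 = m ^ 2 / D := by rw [div_pow, hss]
  rw [h2] at h1
  have h3 : D / 2 * (WW (m / √D) (x + 1)) ≤ D / 2 * (WW (m / √D) x + 2 * (m ^ 2 / D) + 2 * x + 1) :=
    mul_le_mul_of_nonneg_left (by nlinarith) (by linarith)
  unfold U
  have h4 : D / 2 * (WW (m / √D) x + 2 * (m ^ 2 / D) + 2 * x + 1)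
      = D / 2 * WW (m / √D) x + m ^ 2 + D * (x + 1 / 2) := by
    field_simp
    ring
  linarith

lemma U_anti {D m m' x : ℝ} (hD : 0 < D) (hm : 0 ≤ m) (hmm : m ≤ m') (hx : 0 ≤ x) :
    U D m' x - m' ^ 2 * x ≤ U D m x - m ^ 2 * x := by
  rcases hx.eq_or_lt with h0 | h0
  · rw [← h0, U_zero, U_zero]; simp
  have hs : 0 < √D := Real.sqrt_pos.2 hD
  have hss : √D ^ 2 = D := Real.sq_sqrt hD.le
  have hr : 0 < √x := Real.sqrt_pos.2 h0
  have hrr : √x ^ 2 = x := Real.sq_sqrt hx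
  have h1 := ff_anti (s := m / √D / √x) (t := m' / √D / √x) (by positivity) (by gcongr)
  have e : ∀ u : ℝ, (u / √D / √x) ^ 2 = u ^ 2 / (D * x) := by
    intro u
    rw [div_pow, div_pow, hss, hrr, div_div]
  rw [e, e] at h1
  have h2 := mul_le_mul_of_nonneg_left h1 (by positivity : 0 ≤ D / 2 * x ^ 2)
  have e2 : ∀ u : ℝ, D / 2 * x ^ 2 * (ff (u / √D / √x) - 2 * (u ^ 2 / (D * x)))
      = U D u x - u ^ 2 * x := by
    intro u
    unfold U WW
    field_simp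
  rw [e2, e2] at h2
  exact h2

lemma ff_zero : ff 0 = 1 := by
  rw [ff_of_le (by norm_num)]
  unfold f1
  norm_num

lemma U_le {D m x : ℝ} (hD : 0 < D) (hm : 0 ≤ m) (hx : 0 ≤ x) :
    U D m x ≤ m ^ 2 * x + D * x ^ 2 / 2 := by
  have h1 := U_anti hD le_rfl hm hx
  have h2 : U D 0 x = D * x ^ 2 / 2 := by
    unfold U WW
    rw [zero_div, zero_div, ff_zero]
    ring
  rw [h2] at h1
  linarith

lemma U_I {D m x : ℝ} (hD : 0 < D) (hx : 0 < x) (h : m ^ 2 ≤ 2 * D * x) :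
    U D m x = m ^ 2 * x + D * x ^ 2 / 2 - m ^ 4 / (7 * D) := by
  have hs : 0 < √D := Real.sqrt_pos.2 hD
  have hss : √D ^ 2 = D := Real.sq_sqrt hD.le
  have e1 : (m / √D) ^ 2 = m ^ 2 / D := by rw [div_pow, hss]
  have e2 : (m / √D) ^ 4 = m ^ 4 / D ^ 2 := by
    rw [div_pow, show √D ^ 4 = (√D ^ 2) ^ 2 by ring, hss]
  unfold U
  rw [WW_I hx (by rw [e1, div_le_iff₀ hD]; linarith), e1, e2]
  field_simp
  ring

/-- the potential which is also good for late starts -/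
def Psi (D s m x : ℝ) : ℝ := min (U D m x) (s * x * m)

lemma Psi_zero_x (D s m : ℝ) : Psi D s m 0 = 0 := by
  unfold Psi; rw [U_zero]; simp

lemma Psi_zero_m {D s x : ℝ} (hD : 0 < D) (hx : 0 ≤ x) : Psi D s 0 x = 0 := by
  unfold Psi
  rw [mul_zero, min_eq_right (U_nonneg hD le_rfl hx)]

lemma Psi_nonneg {D s m x : ℝ} (hD : 0 < D) (hs : 0 ≤ s) (hm : 0 ≤ m) (hx : 0 ≤ x) :
    0 ≤ Psi D s m x := le_min (U_nonneg hD hm hx) (by positivity)

lemma Psi_one (D s x : ℝ) : Psi D s 1 x ≤ s * x := by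
  unfold Psi
  refine (min_le_right _ _).trans ?_
  rw [mul_one]

lemma Psi_add {D s a b x E : ℝ} (hD : 0 < D) (ha : 0 ≤ a) (hb : 0 ≤ b) (hx : 0 ≤ x)
    (hE : a + b ≤ E) (hs : 2 * E ≤ s) : Psi D s (a + b) x ≤ Psi D s a x + Psi D s b x := by
  have mixed : ∀ a b : ℝ, 0 ≤ a → 0 ≤ b → a + b ≤ E → U D (a + b) x ≤ U D a x + s * x * b := by
    intro a b ha hb hE
    have h1 := U_anti hD ha (by linarith : a ≤ a + b) hx
    have h2 : (a + b) ^ 2 * x - a ^ 2 * x ≤ s * x * b := by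
      have : (a + b) ^ 2 * x - a ^ 2 * x = (2 * a + b) * (x * b) := by ring
      rw [this, mul_assoc s x b]
      exact mul_le_mul_of_nonneg_right (by linarith) (mul_nonneg hx hb)
    linarith
  have hV : Psi D s (a + b) x ≤ s * x * (a + b) := min_le_right _ _
  have hU : Psi D s (a + b) x ≤ U D (a + b) x := min_le_left _ _
  have h3 := U_add (D := D) (x := x) hD ha hb
  have h4 := mixed a b ha hb hE
  have h5 := mixed b a hb ha (by linarith)
  rw [add_comm b a] at h5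
  unfold Psi at *
  rcases min_choice (U D a x) (s * x * a) with h | h <;>
    rcases min_choice (U D b x) (s * x * b) with h' | h' <;> rw [h, h'] <;> linarith

lemma Psi_step {D s m x : ℝ} (hD : 0 < D) (hm : 0 < m) (hx : 0 ≤ x) :
    Psi D s m (x + 1) ≤ Psi D s m x + m ^ 2 + D * (x + 1 / 2) := by
  rcases le_or_gt (U D m x) (s * x * m) with h | h
  · have h1 := U_step hD hm hx
    have h2 : Psi D s m x = U D m x := min_eq_left h
    have h3 : Psi D s m (x + 1) ≤ U D m (x + 1) := min_le_left _ _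
    linarith
  · have h2 : Psi D s m x = s * x * m := min_eq_right h.le
    have h3 : Psi D s m (x + 1) ≤ s * (x + 1) * m := min_le_right _ _
    have h4 := U_le hD hm.le hx
    rcases hx.eq_or_lt with h0 | h0
    · rw [← h0, U_zero] at h
      simp at h
    · have h5 : s * m < m ^ 2 + D * x / 2 := by
        have : x * (s * m) < x * (m ^ 2 + D * x / 2) := by nlinarith
        exact lt_of_mul_lt_mul_left this h0.le
      nlinarith

lemma Psi_top {D s m E X : ℝ} (hD : 0 < D) (hm : 0 ≤ m) (hmE : m ≤ E) (hX : 0 < X)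
    (h1 : E ^ 2 ≤ 2 * D * X) (h2 : 2 * E ≤ s) (h3 : E ^ 2 + D * X / 2 ≤ s * E) :
    E ^ 2 * X + D * X ^ 2 / 2 - E ^ 4 / (7 * D) - s * X * (E - m) ≤ Psi D s m X := by
  have hE : 0 ≤ E := hm.trans hmE
  unfold Psi
  refine le_min ?_ ?_
  · have hm2 : m ^ 2 ≤ E ^ 2 := pow_le_pow_left₀ hm hmE 2
    have hm4 : m ^ 4 ≤ E ^ 4 := pow_le_pow_left₀ hm hmE 4
    rw [U_I hD hX (hm2.trans h1)]
    have h5 : m ^ 4 / (7 * D) ≤ E ^ 4 / (7 * D) := by gcongr
    have h6 : (E + m) * (X * (E - m)) ≤ s * (X * (E - m)) :=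
      mul_le_mul_of_nonneg_right (by linarith) (mul_nonneg hX.le (by linarith))
    nlinarith
  · have h5 : 0 ≤ E ^ 4 / (7 * D) := by positivity
    have h6 : X * (E ^ 2 + D * X / 2) ≤ X * (s * E) := mul_le_mul_of_nonneg_left h3 hX.le
    nlinarith

/-- finite sums -/
lemma Psi_sum {ι : Type*} {D s x E : ℝ} (hD : 0 < D) (hx : 0 ≤ x) (hs : 2 * E ≤ s)
    (S : Finset ι) (f : ι → ℝ) (hf : ∀ i ∈ S, 0 ≤ f i) (hE : ∑ i ∈ S, f i ≤ E) :
    Psi D s (∑ i ∈ S, f i) x ≤ ∑ i ∈ S, Psi D s (f i) x := by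
  classical
  induction S using Finset.induction_on with
  | empty => simp [Psi_zero_m hD hx]
  | insert i S hi ih =>
    rw [sum_insert hi] at hE ⊢
    rw [sum_insert hi]
    have h0 : 0 ≤ f i := hf i (mem_insert_self _ _)
    have h1 : ∀ j ∈ S, 0 ≤ f j := fun j hj => hf j (mem_insert_of_mem hj)
    have h2 : 0 ≤ ∑ j ∈ S, f j := sum_nonneg h1
    have h3 := ih h1 (by linarith)
    have h4 := Psi_add (D := D) (s := s) hD h0 h2 hx hE hs
    linarith

end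

end Pool.Agent.Lib.MP_b0a977_co.Mid
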