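import Pool.Agent.Lib.MP_b0a977_co.OneSide
import Pool.Agent.Lib.MP_b0a977_co.Mid.Psi

/-!
# One side of a diametral path, in the middle range
-/

set_option linter.unusedSectionVars false

namespace Pool.Agent.Lib.MP_b0a977_co

open Finset Mid

namespace Geo

variable {V : Type*} [Fintype V] [DecidableEq V]
variable {G : SimpleGraph V} {d : ℕ} (g : Geo G d)

/-- the vertices of `L` below level `j` -/
noncomputable def Lj (c j : ℕ) : Finset V := (g.L c).filter fun x => g.δ x < j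

/-- the number of vertices of `L` on level `j` -/
noncomputable def Nj (c j : ℕ) : ℕ := #((g.L c).filter fun x => g.δ x = j)

/-- the number of vertices of `L` below level `j` which are below `z` -/
noncomputable def mj (c j : ℕ) (z : V) : ℕ := #((g.Lj c j).filter fun x => g.u j x = z)

/-- the ordered pairs below level `j` which are not joined at level `j` -/
noncomputable def Uj (c j : ℕ) : ℕ := #((g.Lj c j ×ˢ g.Lj c j).filter fun q => g.u j q.1 ≠ g.u j q.2)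

lemma sum_mj (c j : ℕ) : ∑ z, g.mj c j z = #(g.Lj c j) := by
  unfold mj
  rw [card_eq_sum_card_fiberwise (f := fun x => g.u j x) (t := univ)]
  intro x _
  simp

lemma Uj_add (c j : ℕ) : g.Uj c j + ∑ z, g.mj c j z ^ 2 = #(g.Lj c j) ^ 2 := by
  have h2 : #((g.Lj c j ×ˢ g.Lj c j).filter fun q => g.u j q.1 = g.u j q.2)
      = ∑ z, g.mj c j z ^ 2 := by
    rw [card_eq_sum_card_fiberwise (f := fun q : V × V => g.u j q.1) (t := univ)]
    · apply sum_congr rfl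
      intro z _
      unfold mj
      rw [sq, ← card_product]
      congr 1
      ext ⟨x, y⟩
      simp only [mem_filter, mem_product]
      constructor
      · rintro ⟨⟨⟨a, b⟩, e⟩, h⟩
        exact ⟨⟨a, h⟩, ⟨b, by rw [← e]; exact h⟩⟩
      · rintro ⟨⟨a, h⟩, ⟨b, h'⟩⟩
        exact ⟨⟨⟨a, b⟩, by rw [h, h']⟩, h⟩
    · intro q _
      simp
  have h3 : #((g.Lj c j ×ˢ g.Lj c j).filter fun q => g.u j q.1 = g.u j q.2)
      + #((g.Lj c j ×ˢ g.Lj c j).filter fun q => g.u j q.1 ≠ g.u j q.2) = #(g.Lj c j) ^ 2 := by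
    rw [card_filter_add_card_filter_not, card_product, sq]
  unfold Uj
  omega

lemma offDiag_le2 (c : ℕ) :
    ∑ q ∈ (g.L c).offDiag, (G.dist q.1 q.2 : ℤ)
      ≤ 2 * ((#(g.L c) : ℤ) - 1) * ∑ x ∈ g.L c, (g.δ x : ℤ)
        + 2 * #(g.L c) * (#(g.L c) - 1)
        + 2 * ∑ j ∈ Ioc 0 d, (g.Uj c j : ℤ) := by
  classical
  have h1 : ∑ q ∈ (g.L c).offDiag, (G.dist q.1 q.2 : ℤ)
      ≤ ∑ q ∈ (g.L c).offDiag, (((g.δ q.1 : ℤ) + g.δ q.2) + 2
        + 2 * #((Ioc 0 d).filter fun j => g.δ q.1 < j ∧ g.δ q.2 < j ∧ g.u j q.1 ≠ g.u j q.2)) := by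
    apply sum_le_sum
    intro q _
    exact_mod_cast g.dist_le_pair q.1 q.2
  rw [sum_add_distrib, sum_add_distrib, sum_offDiag_add (g.L c) (fun x => (g.δ x : ℤ)),
    ← mul_sum] at h1
  have h2 : ∑ q ∈ (g.L c).offDiag,
      #((Ioc 0 d).filter fun j => g.δ q.1 < j ∧ g.δ q.2 < j ∧ g.u j q.1 ≠ g.u j q.2)
      ≤ ∑ q ∈ (g.L c) ×ˢ (g.L c),
      #((Ioc 0 d).filter fun j => g.δ q.1 < j ∧ g.δ q.2 < j ∧ g.u j q.1 ≠ g.u j q.2) := by
    apply sum_le_sum_of_subset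
    intro q hq
    rw [mem_offDiag] at hq
    exact mem_product.2 ⟨hq.1, hq.2.1⟩
  have h3 : ∑ q ∈ (g.L c) ×ˢ (g.L c),
      #((Ioc 0 d).filter fun j => g.δ q.1 < j ∧ g.δ q.2 < j ∧ g.u j q.1 ≠ g.u j q.2)
      = ∑ j ∈ Ioc 0 d, g.Uj c j := by
    unfold Uj
    simp_rw [card_filter]
    rw [sum_comm]
    apply sum_congr rfl
    intro j hj
    rw [← card_filter, ← card_filter]
    congr 1
    ext ⟨x, y⟩
    simp only [mem_filter, mem_product, Lj]
    tauto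
  have h4 : ((∑ q ∈ (g.L c).offDiag,
      #((Ioc 0 d).filter fun j => g.δ q.1 < j ∧ g.δ q.2 < j ∧ g.u j q.1 ≠ g.u j q.2) : ℕ) : ℤ)
      ≤ ((∑ j ∈ Ioc 0 d, g.Uj c j : ℕ) : ℤ) := by
    exact_mod_cast h2.trans h3.le
  push_cast at h4
  have h5 : ∑ q ∈ (g.L c).offDiag, (2 : ℤ) = 2 * #(g.L c) * (#(g.L c) - 1) := by
    rw [sum_const, offDiag_card, nsmul_eq_mul,
      Nat.cast_sub (Nat.le_mul_self _)]
    push_cast; ring
  rw [h5] at h1
  linarith

lemma Uj_le (c j : ℕ) (hj : j ≤ d) : 2 * g.Uj c j ≤ #(g.L c) ^ 2 * g.Nj c j := by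
  refine (neq_pairs _ _ _ (g.image_u_card c j hj)).trans ?_
  apply Nat.mul_le_mul_right
  apply Nat.pow_le_pow_left
  exact card_le_card (filter_subset _ _)

lemma card_pos_mj (c j : ℕ) (hj : j ≤ d) :
    #(univ.filter fun z => 0 < g.mj c j z) ≤ g.Nj c j + 1 := by
  refine le_trans (card_le_card ?_) (g.image_u_card c j hj)
  intro z hz
  simp only [mem_filter, mem_univ, true_and, mj, card_pos] at hz
  obtain ⟨x, hx⟩ := hz
  rw [mem_filter] at hx
  rw [mem_image]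
  exact ⟨x, hx.1, hx.2⟩

/-- the masses of the next level -/
lemma mj_succ (c j : ℕ) (z : V) :
    g.mj c (j + 1) z = ∑ y ∈ univ.filter (fun y => g.nx y = z),
      (g.mj c j y + if y ∈ (g.L c).filter (fun x => g.δ x = j) then 1 else 0) := by
  classical
  unfold mj
  rw [card_eq_sum_card_fiberwise (f := fun x => g.u j x) (t := univ.filter (fun y => g.nx y = z))]
  · refine sum_congr rfl fun y hy => ?_
    rw [mem_filter] at hy
    have h1 : ((g.Lj c (j + 1)).filter (fun x => g.u (j + 1) x = z)).filter (fun x => g.u j x = y)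
        = ((g.Lj c j).filter fun x => g.u j x = y) ∪
          (((g.L c).filter (fun x => g.δ x = j)).filter fun x => x = y) := by
      ext x
      simp only [mem_filter, mem_union, Lj]
      constructor
      · rintro ⟨⟨⟨h1, h2⟩, h3⟩, h4⟩
        rcases (Nat.lt_succ_iff.1 h2).lt_or_eq with h5 | h5
        · exact Or.inl ⟨⟨h1, h5⟩, h4⟩
        · refine Or.inr ⟨⟨h1, h5⟩, ?_⟩
          rw [← h4]
          unfold u
          rw [h5, Nat.sub_self]; rfl
      · rintro (⟨⟨h1, h2⟩, h3⟩ | ⟨⟨h1, h2⟩, h3⟩)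
        · refine ⟨⟨⟨h1, by omega⟩, ?_⟩, h3⟩
          rw [g.u_succ h2.le, h3, hy.2]
        · have h4 : g.u j x = y := by
            unfold u
            rw [h2, Nat.sub_self, ← h3]; rfl
          refine ⟨⟨⟨h1, by omega⟩, ?_⟩, h4⟩
          rw [g.u_succ h2.le, h4, hy.2]
    rw [h1, card_union_of_disjoint]
    · congr 1
      split_ifs with h
      · rw [filter_eq', if_pos h, card_singleton]
      · rw [filter_eq', if_neg h, card_empty]
    · rw [disjoint_left]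
      intro x hx hx'
      simp only [mem_filter, Lj] at hx hx'
      omega
  · intro x hx
    simp only [coe_filter, mem_filter, Lj, Set.mem_ofPred_eq] at hx
    simp only [coe_filter, mem_univ, true_and, Set.mem_ofPred_eq]
    rw [← hx.2, g.u_succ (by omega)]

/-- the total potential after `i` levels -/
noncomputable def Phi (D s : ℝ) (c i : ℕ) : ℝ := ∑ z, Psi D s (g.mj c (i + 1) z) i

lemma card_Lj_le (c j : ℕ) : #(g.Lj c j) ≤ #(g.L c) := card_le_card (filter_subset _ _)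

lemma mj_le (c j : ℕ) (z : V) : g.mj c j z ≤ #(g.L c) :=
  (card_le_card (filter_subset _ _)).trans (g.card_Lj_le c j)

lemma Phi_zero (D s : ℝ) (c : ℕ) : g.Phi D s c 0 = 0 := by
  unfold Phi
  refine sum_eq_zero fun z _ => ?_
  rw [Nat.cast_zero, Psi_zero_x]

lemma Phi_step {D s : ℝ} (hD : 0 < D) (c i : ℕ) (hs : 2 * (#(g.L c) : ℝ) ≤ s) (hi : i + 1 ≤ d) :
    g.Phi D s c (i + 1) ≤ g.Phi D s c i + ∑ z, (g.mj c (i + 1) z : ℝ) ^ 2
      + D * (i + 1 / 2) * (g.Nj c (i + 1) + 1) + s * (i + 1) * g.Nj c (i + 1) := by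
  classical
  have hs0 : 0 ≤ s := le_trans (by positivity) hs
  have hx : (0 : ℝ) ≤ ((i + 1 : ℕ) : ℝ) := by positivity
  set A := (g.L c).filter (fun x => g.δ x = i + 1) with hA
  -- subadditivity
  have h1 : g.Phi D s c (i + 1) ≤ ∑ y, (Psi D s (g.mj c (i + 1) y) ((i + 1 : ℕ) : ℝ)
      + if y ∈ A then s * ((i + 1 : ℕ) : ℝ) else 0) := by
    rw [← sum_fiberwise univ g.nx]
    unfold Phi
    refine sum_le_sum fun z _ => ?_
    have h2 := g.mj_succ c (i + 1) z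
    rw [← hA] at h2
    have h3 : (g.mj c (i + 1 + 1) z : ℝ) = ∑ y ∈ univ.filter (fun y => g.nx y = z),
      ((g.mj c (i + 1) y : ℝ) + if y ∈ A then 1 else 0) := by
      rw [h2]; push_cast
      rfl
    have h4 : ∑ y ∈ univ.filter (fun y => g.nx y = z),
      ((g.mj c (i + 1) y : ℝ) + if y ∈ A then 1 else 0) ≤ #(g.L c) := by
      rw [← h3]; exact_mod_cast g.mj_le c _ z
    rw [h3]
    refine (Psi_sum hD hx hs _ _ ?_ h4).trans (sum_le_sum fun y hy => ?_)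
    · intro y _
      have : (0 : ℝ) ≤ if y ∈ A then 1 else 0 := by split_ifs <;> norm_num
      positivity
    · have h5 : (g.mj c (i + 1) y : ℝ) + (if y ∈ A then 1 else 0) ≤ #(g.L c) := by
        refine le_trans ?_ h4
        refine single_le_sum (f := fun y => (g.mj c (i + 1) y : ℝ) + if y ∈ A then 1 else 0) ?_ hy
        intro y _
        have : (0 : ℝ) ≤ if y ∈ A then 1 else 0 := by split_ifs <;> norm_num
        positivity
      split_ifs at h5 ⊢ with h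
      · have h6 := Psi_add (D := D) (s := s) (a := (g.mj c (i + 1) y : ℝ)) (b := 1) hD
          (by positivity) (by norm_num) hx h5 hs
        have h7 := Psi_one D s ((i + 1 : ℕ) : ℝ)
        linarith
      · simp
  rw [sum_add_distrib, ← sum_filter, filter_mem_eq_inter, univ_inter, sum_const, nsmul_eq_mul] at h1
  have hcA : (#A : ℝ) = g.Nj c (i + 1) := rfl
  -- the step
  have h2 : ∑ y, Psi D s (g.mj c (i + 1) y) ((i + 1 : ℕ) : ℝ) ≤
      ∑ y, (Psi D s (g.mj c (i + 1) y) i + (g.mj c (i + 1) y : ℝ) ^ 2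
        + if 0 < g.mj c (i + 1) y then D * ((i : ℝ) + 1 / 2) else 0) := by
    refine sum_le_sum fun y _ => ?_
    rcases Nat.eq_zero_or_pos (g.mj c (i + 1) y) with h | h
    · rw [h]
      simp only [lt_irrefl, if_false, Nat.cast_zero]
      rw [Psi_zero_m hD hx, Psi_zero_m hD (Nat.cast_nonneg i)]
      norm_num
    · rw [if_pos h]
      have h3 : (0 : ℝ) < g.mj c (i + 1) y := by exact_mod_cast h
      have h4 := Psi_step (D := D) (s := s) (x := (i : ℝ)) hD h3 (Nat.cast_nonneg i)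
      push_cast
      linarith
  rw [sum_add_distrib, sum_add_distrib, ← sum_filter, sum_const, nsmul_eq_mul] at h2
  have h3 : (#(univ.filter fun z => 0 < g.mj c (i + 1) z) : ℝ) ≤ g.Nj c (i + 1) + 1 := by
    exact_mod_cast g.card_pos_mj c (i + 1) hi
  have h4 : (#(univ.filter fun z => 0 < g.mj c (i + 1) z) : ℝ) * (D * ((i : ℝ) + 1 / 2)) ≤
      (g.Nj c (i + 1) + 1) * (D * ((i : ℝ) + 1 / 2)) :=
    mul_le_mul_of_nonneg_right h3 (by positivity)
  have h5 : g.Phi D s c i = ∑ y, Psi D s (g.mj c (i + 1) y) i := rfl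
  rw [hcA] at h1
  push_cast at h1
  push_cast at h2
  rw [h5]
  linarith

lemma Phi_le {D s : ℝ} (hD : 0 < D) (c : ℕ) (hs : 2 * (#(g.L c) : ℝ) ≤ s) (X : ℕ) (hX : X ≤ d) :
    g.Phi D s c X ≤ ∑ i ∈ range X, ∑ z, (g.mj c (i + 1) z : ℝ) ^ 2 + D * X ^ 2 / 2
      + (D + s) * ∑ i ∈ range X, ((i : ℝ) + 1) * g.Nj c (i + 1) := by
  induction X with
  | zero => simp [Phi_zero]
  | succ i ih =>
    have h1 := g.Phi_step hD c i hs hX
    have h2 := ih (by omega)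
    rw [sum_range_succ, sum_range_succ]
    push_cast
    have h3 : (0 : ℝ) ≤ g.Nj c (i + 1) := by positivity
    have h4 : 0 ≤ D * g.Nj c (i + 1) := by positivity
    linarith

lemma Phi_ge {D s : ℝ} (hD : 0 < D) (c : ℕ) (hs : 2 * (#(g.L c) : ℝ) ≤ s) (X : ℕ) :
    Psi D s (#(g.Lj c (X + 1))) X ≤ g.Phi D s c X := by
  have h1 : ((#(g.Lj c (X + 1)) : ℕ) : ℝ) = ∑ z, (g.mj c (X + 1) z : ℝ) := by
    rw [← g.sum_mj]; push_cast; rfl
  have h2 : ∑ z, (g.mj c (X + 1) z : ℝ) ≤ #(g.L c) := by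
    rw [← h1]; exact_mod_cast g.card_Lj_le c _
  rw [h1]
  exact Psi_sum hD (Nat.cast_nonneg X) hs _ _ (fun i _ => by positivity) h2

/-- the cost of a vertex -/
noncomputable def ww (D s E : ℝ) (X t : ℕ) : ℝ := if t ≤ X then (D + s) * t else s * X + E ^ 2 / 2

lemma sum_N_low (c X : ℕ) : ∑ i ∈ range X, ((i : ℝ) + 1) * g.Nj c (i + 1) =
    ∑ x ∈ g.L c, if g.δ x ≤ X then (g.δ x : ℝ) else 0 := by
  have h1 : ∀ i ∈ range X, ((i : ℝ) + 1) * g.Nj c (i + 1) =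
      ∑ x ∈ g.L c, if g.δ x = i + 1 then ((i : ℝ) + 1) else 0 := by
    intro i _
    rw [← sum_filter, sum_const, nsmul_eq_mul, mul_comm]
    rfl
  rw [sum_congr rfl h1, sum_comm]
  refine sum_congr rfl fun x _ => ?_
  rcases Nat.eq_zero_or_pos (g.δ x) with h | h
  · rw [h]
    simp
  · obtain ⟨t, ht⟩ : ∃ t, g.δ x = t + 1 := ⟨g.δ x - 1, by omega⟩
    rw [ht]
    by_cases h2 : t + 1 ≤ X
    · rw [if_pos h2, sum_eq_single_of_mem t (mem_range.2 (by omega))]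
      · rw [if_pos rfl]; push_cast; ring
      · intro i _ hi
        rw [if_neg (by omega)]
    · rw [if_neg h2]
      refine sum_eq_zero fun i hi => ?_
      rw [mem_range] at hi
      rw [if_neg (by omega)]

lemma sum_N_high (c X : ℕ) : ∑ j ∈ Ioc X d, g.Nj c j = #((g.L c).filter fun x => X < g.δ x) := by
  rw [card_eq_sum_card_fiberwise (f := fun x => g.δ x) (t := Ioc X d)]
  · refine sum_congr rfl fun j hj => ?_
    rw [mem_Ioc] at hj
    unfold Nj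
    congr 1
    ext x
    simp only [mem_filter]
    constructor
    · rintro ⟨h1, h2⟩
      exact ⟨⟨h1, by omega⟩, h2⟩
    · rintro ⟨⟨h1, -⟩, h2⟩
      exact ⟨h1, h2⟩
  · intro x hx
    simp only [coe_filter, Set.mem_ofPred_eq] at hx
    have := g.δ_add_s x
    have h2 : g.δ x ≤ d := by omega
    exact mem_coe.2 (mem_Ioc.2 ⟨hx.2, h2⟩)

lemma sum_Uj_le {D s : ℝ} (hD : 0 < D) (c X : ℕ) (hX0 : 0 < X) (hX : X ≤ d)
    (h1 : 2 * (#(g.L c) : ℝ) ≤ s) (h2 : (#(g.L c) : ℝ) ^ 2 ≤ 2 * D * X)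
    (h3 : (#(g.L c) : ℝ) ^ 2 + D * X / 2 ≤ s * #(g.L c)) :
    ∑ j ∈ Ioc 0 d, (g.Uj c j : ℝ) ≤ (#(g.L c) : ℝ) ^ 4 / (7 * D)
      + ∑ x ∈ g.L c, ww D s #(g.L c) X (g.δ x) := by
  set E : ℝ := (#(g.L c) : ℝ) with hE
  have hE0 : 0 ≤ E := by positivity
  have hs0 : 0 ≤ s := le_trans (by positivity) h1
  -- the low levels
  have hlow : ∑ i ∈ range X, (g.Uj c (i + 1) : ℝ) ≤
      X * E ^ 2 - ∑ i ∈ range X, ∑ z, (g.mj c (i + 1) z : ℝ) ^ 2 := by
    have h4 : ∀ i ∈ range X, (g.Uj c (i + 1) : ℝ) ≤ E ^ 2 - ∑ z, (g.mj c (i + 1) z : ℝ) ^ 2 := by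
      intro i _
      have h5 : (g.Uj c (i + 1) : ℝ) + ∑ z, (g.mj c (i + 1) z : ℝ) ^ 2 = (#(g.Lj c (i + 1)) : ℝ) ^ 2 := by
        exact_mod_cast g.Uj_add c (i + 1)
      have h6 : (#(g.Lj c (i + 1)) : ℝ) ≤ E := by rw [hE]; exact_mod_cast g.card_Lj_le c (i + 1)
      have h7 : (#(g.Lj c (i + 1)) : ℝ) ^ 2 ≤ E ^ 2 := pow_le_pow_left₀ (by positivity) h6 2
      linarith
    refine (sum_le_sum h4).trans (le_of_eq ?_)
    rw [sum_sub_distrib, sum_const, card_range, nsmul_eq_mul]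
  have hPhi := (g.Phi_ge (D := D) (s := s) hD c h1 X).trans (g.Phi_le (D := D) (s := s) hD c h1 X hX)
  have hcard : (#(g.Lj c (X + 1)) : ℝ) + #((g.L c).filter fun x => X < g.δ x) = E := by
    have := card_filter_add_card_filter_not (s := g.L c) (fun x => g.δ x < X + 1)
    have h8 : (g.L c).filter (fun x => ¬ g.δ x < X + 1) = (g.L c).filter fun x => X < g.δ x := by
      refine filter_congr fun x _ => ?_
      omega
    rw [h8] at this
    rw [hE]
    exact_mod_cast this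
  set R : ℝ := (#((g.L c).filter fun x => X < g.δ x) : ℝ) with hR
  have hR0 : 0 ≤ R := by positivity
  have htop := Psi_top (D := D) (s := s) (m := (#(g.Lj c (X + 1)) : ℝ)) (E := E) (X := X) hD
    (by positivity) (by linarith) (by exact_mod_cast hX0) h2 h1 h3
  have hRm : E - (#(g.Lj c (X + 1)) : ℝ) = R := by linarith
  rw [hRm] at htop
  -- the high levels
  have hhigh : ∑ j ∈ Ioc X d, (g.Uj c j : ℝ) ≤ E ^ 2 / 2 * R := by
    have h4 : ∀ j ∈ Ioc X d, (g.Uj c j : ℝ) ≤ E ^ 2 / 2 * g.Nj c j := by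
      intro j hj
      rw [mem_Ioc] at hj
      have h5 : 2 * (g.Uj c j : ℝ) ≤ E ^ 2 * g.Nj c j := by
        rw [hE]; exact_mod_cast g.Uj_le c j hj.2
      linarith
    refine (sum_le_sum h4).trans (le_of_eq ?_)
    rw [← mul_sum, hR, ← g.sum_N_high c X]
    push_cast
    rfl
  have hsplit : ∑ j ∈ Ioc 0 d, (g.Uj c j : ℝ) = ∑ i ∈ range X, (g.Uj c (i + 1) : ℝ)
      + ∑ j ∈ Ioc X d, (g.Uj c j : ℝ) := by
    rw [← sum_Ioc_consecutive _ (Nat.zero_le X) hX]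
    congr 1
    rw [range_eq_Ico, sum_Ico_add' (fun j => (g.Uj c j : ℝ)) 0 X 1]
    apply sum_congr _ fun _ _ => rfl
    ext j
    simp only [mem_Ioc, mem_Ico]
    omega
  have hww : ∑ x ∈ g.L c, ww D s E X (g.δ x) =
      (D + s) * ∑ i ∈ range X, ((i : ℝ) + 1) * g.Nj c (i + 1) + (s * X + E ^ 2 / 2) * R := by
    rw [g.sum_N_low, hR, card_filter, mul_sum]
    push_cast
    rw [mul_sum, ← sum_add_distrib]
    refine sum_congr rfl fun x _ => ?_
    unfold ww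
    by_cases h : g.δ x ≤ X
    · rw [if_pos h, if_pos h, if_neg (by omega)]; ring
    · rw [if_neg h, if_neg h, if_pos (by omega)]; ring
  rw [hsplit, hww]
  linarith

/-- one side of the path -/
theorem one_side2 (c : ℕ) (hc : c ≤ d) {D s : ℝ} (hD : 0 < D) (X : ℕ) (hX0 : 0 < X) (hX : X ≤ d)
    (h1 : 2 * (#(g.L c) : ℝ) ≤ s) (h2 : (#(g.L c) : ℝ) ^ 2 ≤ 2 * D * X)
    (h3 : (#(g.L c) : ℝ) ^ 2 + D * X / 2 ≤ s * #(g.L c))
    (h4 : D + s + X + 7 * #(g.L c) ≤ d) (h5 : 4 * (#(g.L c) : ℝ) ^ 2 ≤ X * d)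
    (h6 : 48 * (#(g.L c) : ℝ) ≤ d) (h7 : 8 * s ≤ d) :
    (2 * ∑ x ∈ g.L c, (g.D x : ℝ) + ∑ q ∈ (g.L c).offDiag, (G.dist q.1 q.2 : ℝ))
      ≤ #(g.L c) * (d * (d + 1)) + 2 * #(g.L c) * (#(g.L c) + 1)
        + 2 * (#(g.L c) : ℝ) ^ 4 / (7 * D) := by
  have hU := g.sum_Uj_le hD c X hX0 hX h1 h2 h3
  have hoff : ∑ q ∈ (g.L c).offDiag, (G.dist q.1 q.2 : ℝ)
      ≤ 2 * ((#(g.L c) : ℝ) - 1) * ∑ x ∈ g.L c, (g.δ x : ℝ)
        + 2 * #(g.L c) * (#(g.L c) - 1)
        + 2 * ∑ j ∈ Ioc 0 d, (g.Uj c j : ℝ) := by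
    have := g.offDiag_le2 c
    have h8 : ((∑ q ∈ (g.L c).offDiag, (G.dist q.1 q.2 : ℤ) : ℤ) : ℝ)
      ≤ ((2 * ((#(g.L c) : ℤ) - 1) * ∑ x ∈ g.L c, (g.δ x : ℤ)
        + 2 * #(g.L c) * (#(g.L c) - 1)
        + 2 * ∑ j ∈ Ioc 0 d, (g.Uj c j : ℤ) : ℤ) : ℝ) := by exact_mod_cast this
    push_cast at h8
    exact h8
  set L := g.L c with hL
  set E : ℝ := (#L : ℝ) with hE
  set Δ : ℝ := ∑ x ∈ L, (g.δ x : ℝ) with hΔ
  have hE0 : 0 ≤ E := by positivity
  have hs0 : 0 ≤ s := le_trans (by positivity) h1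
  have hXr : (0 : ℝ) < X := by exact_mod_cast hX0
  have hd0 : (0 : ℝ) ≤ d := by positivity
  have hx : ∀ x ∈ L, 2 * (g.D x : ℝ) ≤ (d * (d + 1) + 4 + 8 * Δ)
      - 10 * E * g.δ x - 2 * ww D s E X (g.δ x) := by
    intro x hx
    have e1 : 2 * (g.D x : ℝ) ≤ d * (d + 1) + 2 * g.m x * (g.m x + 1)
        - 2 * g.δ x * (d - g.δ x - 2 * g.m x) := by exact_mod_cast g.D_le x
    have e2 : (g.m x : ℝ) * (g.m x - 1) ≤ 2 * (Δ - g.δ x) := by
      have := g.m_anc (c := c) (x := x) hx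
      have h8 : (((g.m x : ℤ) * (g.m x - 1) : ℤ) : ℝ)
        ≤ ((2 * ((∑ y ∈ g.L c, (g.δ y : ℤ)) - g.δ x) : ℤ) : ℝ) := by exact_mod_cast this
      push_cast at h8
      exact h8
    have e3 : 1 ≤ g.m x := g.m_pos (g.mem_L.1 hx).1
    have e4 : g.m x ≤ #L := g.m_le_card hx
    have e5 : 2 * g.p x ≤ c := (g.mem_L.1 hx).2
    have e6 : 2 * (g.δ x : ℝ) + 2 * g.m x ≤ d := by
      have : 2 * (g.δ x + g.m x) ≤ d := e5.trans hc
      have : (2 * (g.δ x + g.m x) : ℝ) ≤ d := by exact_mod_cast this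
      linarith
    have e3' : (1 : ℝ) ≤ g.m x := by exact_mod_cast e3
    have e4' : (g.m x : ℝ) ≤ E := by rw [hE]; exact_mod_cast e4
    have e9 : 2 * (g.m x : ℝ) * (g.m x + 1) ≤ 4 + 4 * (g.m x * (g.m x - 1)) := by
      rcases eq_or_lt_of_le e3 with h | h
      · rw [← h]; norm_num
      · have : (2 : ℝ) ≤ g.m x := by exact_mod_cast h
        nlinarith
    have e10 : (0 : ℝ) ≤ g.δ x := by positivity
    unfold ww
    split_ifs with hδ
    · have hδ' : (g.δ x : ℝ) ≤ X := by exact_mod_cast hδ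
      have e11 : 0 ≤ (g.δ x : ℝ) * (d - g.δ x - 2 * g.m x - 5 * E - (D + s)) :=
        mul_nonneg e10 (by linarith)
      nlinarith
    · have hδ' : (X : ℝ) ≤ g.δ x := by
        have : X ≤ g.δ x := by omega
        exact_mod_cast this
      have e11 : 0 ≤ (g.δ x : ℝ) * (d - 2 * g.δ x - 2 * g.m x) := mul_nonneg e10 (by linarith)
      have e12 : 4 * E ^ 2 ≤ g.δ x * d := h5.trans (mul_le_mul_of_nonneg_right hδ' hd0)
      have e13 : s * X ≤ s * g.δ x := mul_le_mul_of_nonneg_left hδ' hs0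
      have e14 : 8 * s * g.δ x ≤ d * g.δ x := mul_le_mul_of_nonneg_right h7 e10
      have e15 : 48 * E * g.δ x ≤ d * g.δ x := mul_le_mul_of_nonneg_right h6 e10
      have e16 : (g.m x : ℝ) * g.δ x ≤ E * g.δ x := mul_le_mul_of_nonneg_right e4' e10
      nlinarith
  have h8 := sum_le_sum hx
  rw [← mul_sum, sum_sub_distrib, sum_sub_distrib, sum_const, nsmul_eq_mul, ← mul_sum, ← mul_sum,
    ← hΔ, ← hE] at h8
  have h9 : 2 * E ^ 4 / (7 * D) = 2 * (E ^ 4 / (7 * D)) := by ring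
  rw [h9]
  have hΔ0 : 0 ≤ Δ := sum_nonneg fun x _ => by positivity
  nlinarith

end Geo

end Pool.Agent.Lib.MP_b0a977_co
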