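import Pool.Agent.Lib.MP_b0a977_co.H62.ForestD

/-!
# Two balanced binary trees at the ends of a long path

`2 ^ (r h + 1)` cells on the level `h`, `1 ≤ h ≤ k`, the cells are residue classes.
-/

set_option autoImplicit false

namespace Pool.Agent.Lib.MP_b0a977_co.Mid

open Finset Pool.Agent.Lib.MP_b0a977_co.H62

/-- the number of cells -/
def qB (r : ℕ → ℕ) (h : ℕ) : ℕ := 2 ^ (r h + 1)

/-- the number of vertices on level `h` -/
def mB (N₀ k : ℕ) (r : ℕ → ℕ) (h : ℕ) : ℕ := if h = 0 then N₀ else if h ≤ k then qB r h else 1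

/-- the parents -/
def pB (k : ℕ) (r : ℕ → ℕ) (h c : ℕ) : ℕ := if h + 1 ≤ k then c % qB r (h + 1) else 0

section

variable {N₀ k : ℕ} {r : ℕ → ℕ}

lemma qB_pos (r : ℕ → ℕ) (h : ℕ) : 0 < qB r h := by unfold qB; positivity

lemma qB_two (r : ℕ → ℕ) (h : ℕ) : 2 ≤ qB r h := by
  unfold qB
  calc 2 = 2 ^ 1 := rfl
    _ ≤ _ := Nat.pow_le_pow_right (by norm_num) (by omega)

lemma qB_dvd (hr : ∀ h, r (h + 1) ≤ r h) {i j : ℕ} (hij : i ≤ j) : qB r j ∣ qB r i := by
  unfold qB
  apply Nat.pow_dvd_pow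
  have : r j ≤ r i := by
    induction j, hij using Nat.le_induction with
    | base => exact le_rfl
    | succ j _ ih => exact (hr j).trans ih
  omega

lemma anc_pB (hr : ∀ h, r (h + 1) ≤ r h) (j c i : ℕ) (hi : j + (i + 1) ≤ k) :
    anc (pB k r) j c (i + 1) = c % qB r (j + (i + 1)) := by
  induction i with
  | zero =>
    rw [anc, anc, pB, if_pos (by omega)]
  | succ i ih =>
    rw [anc, ih (by omega), pB, if_pos (by omega)]
    exact Nat.mod_mod_of_dvd c (qB_dvd hr (by omega))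

lemma count_mod (N q a : ℕ) (hq : 0 < q) (ha : a < q) :
    ((range N).filter fun c => c % q = a).card = N / q + if a < N % q then 1 else 0 := by
  have h1 := Nat.count_modEq_card N hq a
  rw [Nat.count_eq_card_filter_range, Nat.mod_eq_of_lt ha] at h1
  rw [← h1]
  congr 1
  apply filter_congr
  intro c _
  unfold Nat.ModEq
  rw [Nat.mod_eq_of_lt ha]

lemma cnt_pB (hr : ∀ h, r (h + 1) ≤ r h) (h a : ℕ) (h1 : 1 ≤ h) (hk : h ≤ k) (ha : a < qB r h) :
    cnt (mB N₀ k r) (pB k r) h a =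
      (N₀ / qB r h + if a < N₀ % qB r h then 1 else 0) + ∑ j ∈ range h, qB r (j + 1) / qB r h := by
  unfold cnt
  rw [sum_range_succ', add_comm]
  congr 1
  · obtain ⟨i, rfl⟩ : ∃ i, h = i + 1 := ⟨h - 1, by omega⟩
    rw [mB, if_pos rfl, ← count_mod N₀ _ a (qB_pos r _) ha]
    congr 1
    apply filter_congr
    intro c _
    rw [Nat.sub_zero, anc_pB hr 0 c i (by omega), Nat.zero_add]
  · refine sum_congr rfl fun j hj => ?_
    rw [mem_range] at hj
    have h2 : ((range (mB N₀ k r (j + 1))).filter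
        fun c => anc (pB k r) (j + 1) c (h - (j + 1)) = a) =
        (range (qB r (j + 1))).filter fun c => c % qB r h = a := by
      rw [mB, if_neg (by omega), if_pos (by omega)]
      apply filter_congr
      intro c hc
      rw [mem_range] at hc
      rcases Nat.eq_zero_or_pos (h - (j + 1)) with h3 | h3
      · have h4 : j + 1 = h := by omega
        rw [h3, anc, ← h4, Nat.mod_eq_of_lt hc]
      · obtain ⟨i, hi⟩ : ∃ i, h - (j + 1) = i + 1 := ⟨h - (j + 1) - 1, by omega⟩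
        rw [hi, anc_pB hr (j + 1) c i (by omega), show j + 1 + (i + 1) = h by omega]
    rw [h2, count_mod _ _ a (qB_pos r _) ha, Nat.mod_eq_zero_of_dvd (qB_dvd hr (by omega)),
      if_neg (Nat.not_lt_zero a), add_zero]

lemma sum_cnt_pB (hr : ∀ h, r (h + 1) ≤ r h) (h : ℕ) (h1 : 1 ≤ h) (hk : h ≤ k) :
    ∑ a ∈ range (qB r h), cnt (mB N₀ k r) (pB k r) h a = N₀ + ∑ j ∈ range h, qB r (j + 1) := by
  have e1 : ∀ N : ℕ, ∑ a ∈ range (qB r h), ((range N).filter fun c => c % qB r h = a).card = N := by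
    intro N
    rw [← card_eq_sum_card_fiberwise, card_range]
    intro c _
    exact mem_coe.2 (mem_range.2 (Nat.mod_lt _ (qB_pos r h)))
  rw [sum_congr rfl fun a ha => cnt_pB hr h a h1 hk (mem_range.1 ha), sum_add_distrib, sum_comm]
  congr 1
  · rw [← e1 N₀]
    refine sum_congr rfl fun a ha => ?_
    rw [e1 N₀, count_mod N₀ _ a (qB_pos r h) (mem_range.1 ha)]
  · refine sum_congr rfl fun j hj => ?_
    rw [mem_range] at hj
    rw [sum_const, card_range, smul_eq_mul]
    exact Nat.mul_div_cancel' (qB_dvd hr (by omega))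

/-- nearly equal cells -/
lemma sum_sq_near {ι : Type*} (S : Finset ι) (f : ι → ℝ) (t : ℝ) (h1 : ∀ i ∈ S, t ≤ f i)
    (h2 : ∀ i ∈ S, f i ≤ t + 1) (hS : 0 < S.card) :
    ∑ i ∈ S, f i ^ 2 ≤ (∑ i ∈ S, f i) ^ 2 / S.card + S.card / 4 := by
  have hq : (0 : ℝ) < S.card := by exact_mod_cast hS
  have h3 : ∑ i ∈ S, f i ^ 2 ≤ ∑ i ∈ S, ((2 * t + 1) * f i - t * (t + 1)) := by
    refine sum_le_sum fun i hi => ?_
    nlinarith [mul_nonneg (sub_nonneg.2 (h1 i hi)) (sub_nonneg.2 (h2 i hi))]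
  rw [sum_sub_distrib, ← mul_sum, sum_const, nsmul_eq_mul] at h3
  refine h3.trans ?_
  rw [div_add_div _ _ hq.ne' (by norm_num), le_div_iff₀ (by positivity)]
  nlinarith [sq_nonneg (∑ i ∈ S, f i - S.card * (t + 1 / 2))]

lemma sum_cnt_sq (hr : ∀ h, r (h + 1) ≤ r h) (h : ℕ) (h1 : 1 ≤ h) (hk : h ≤ k) :
    ∑ a ∈ range (qB r h), (cnt (mB N₀ k r) (pB k r) h a : ℝ) ^ 2 ≤
      ((N₀ : ℝ) + ∑ j ∈ range h, (qB r (j + 1) : ℝ)) ^ 2 / qB r h + qB r h / 4 := by
  have h2 := sum_sq_near (range (qB r h)) (fun a => (cnt (mB N₀ k r) (pB k r) h a : ℝ))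
    ((N₀ / qB r h + ∑ j ∈ range h, qB r (j + 1) / qB r h : ℕ) : ℝ) (by
      intro a ha
      rw [cnt_pB hr h a h1 hk (mem_range.1 ha)]
      norm_cast
      omega) (by
      intro a ha
      rw [cnt_pB hr h a h1 hk (mem_range.1 ha)]
      norm_cast
      split_ifs <;> omega) (by rw [card_range]; exact qB_pos r h)
  rw [card_range] at h2
  have h3 : ∑ a ∈ range (qB r h), (cnt (mB N₀ k r) (pB k r) h a : ℝ) =
      (N₀ : ℝ) + ∑ j ∈ range h, (qB r (j + 1) : ℝ) := by
    exact_mod_cast sum_cnt_pB (N₀ := N₀) hr h h1 hk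
  rw [h3] at h2
  exact h2

lemma sum_cnt_zero : ∑ a ∈ range (mB N₀ k r 0), (cnt (mB N₀ k r) (pB k r) 0 a : ℝ) ^ 2 = N₀ := by
  have h1 : ∀ a ∈ range (mB N₀ k r 0), (cnt (mB N₀ k r) (pB k r) 0 a : ℝ) ^ 2 = 1 := by
    intro a ha
    have : cnt (mB N₀ k r) (pB k r) 0 a = 1 := by
      unfold cnt
      rw [zero_add, sum_range_one]
      have : (range (mB N₀ k r 0)).filter (fun c => anc (pB k r) 0 c (0 - 0) = a) = {a} := by
        ext c
        rw [mem_filter, mem_singleton, Nat.sub_zero, anc]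
        constructor
        · exact fun h => h.2
        · rintro rfl
          exact ⟨ha, rfl⟩
      rw [this, card_singleton]
    rw [this]; norm_num
  rw [sum_congr rfl h1, sum_const, card_range, nsmul_eq_mul, mul_one, mB, if_pos rfl]

/-- The tree: for `d = 2 k + 1 + ε`. -/
theorem tree (n k ε N₀ : ℕ) (r : ℕ → ℕ) (hk : 1 ≤ k) (hε : ε ≤ 1) (hr : ∀ h, r (h + 1) ≤ r h)
    (hN : 2 ≤ N₀) (hn : n = N₀ + ∑ j ∈ range k, qB r (j + 1) + ε) :
    ∃ G : SimpleGraph (Fin n), G.Connected ∧ G.diam = 2 * k + 1 + ε ∧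
      ∑ x, ∑ y, (((2 * k + 1 + ε : ℕ) : ℝ) - G.dist x y) ≤
        2 * n * (∑ j ∈ range k, ((j : ℝ) + 1) * qB r (j + 1) + ε * (k + 1)) + (2 * N₀ +
          (∑ h ∈ range (k - 1 + ε), (((N₀ : ℝ) + ∑ j ∈ range (h + 1), (qB r (j + 1) : ℝ)) ^ 2
              / qB r (h + 1) + qB r (h + 1) / 4) +
            ∑ h ∈ range k, (((N₀ : ℝ) + ∑ j ∈ range (h + 1), (qB r (j + 1) : ℝ)) ^ 2
              / qB r (h + 1) + qB r (h + 1) / 4))) := by
  have hm1 : ∀ h ∈ range k, mB N₀ k r (h + 1) = qB r (h + 1) := by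
    intro h hh
    rw [mem_range] at hh
    rw [mB, if_neg (by omega), if_pos (by omega)]
  have hsum : n = ∑ h ∈ range (k + ε + 1), mB N₀ k r h := by
    rw [sum_range_succ', mB, if_pos rfl]
    have : ∑ h ∈ range (k + ε), mB N₀ k r (h + 1) = ∑ j ∈ range k, qB r (j + 1) + ε := by
      rcases Nat.le_one_iff_eq_zero_or_eq_one.1 hε with he | he
      · subst he
        rw [add_zero, add_zero]
        exact sum_congr rfl hm1
      · subst he
        rw [sum_range_succ]
        congr 1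
        · exact sum_congr rfl hm1
        · rw [mB, if_neg (by omega), if_neg (by omega)]
    rw [this]
    omega
  obtain ⟨G, hG1, hG2, hG3⟩ := forest2 n (k + ε) (k + ε) (k + 1) (2 * k + 1 + ε) (mB N₀ k r)
    (pB k r) (by
      intro h hh c hc
      rw [mB, if_neg (by omega)]
      by_cases h1 : h + 1 ≤ k
      · rw [if_pos h1, pB, if_pos h1]
        exact Nat.mod_lt _ (qB_pos r _)
      · rw [if_neg h1, pB, if_neg h1]
        norm_num) hsum (by
      rcases Nat.le_one_iff_eq_zero_or_eq_one.1 hε with he | he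
      · left; omega
      · right
        refine ⟨by omega, by omega, by omega, ?_⟩
        rw [he, mB, if_neg (by omega), if_neg (by omega)]) ⟨0, 1, by
          rw [mB, if_pos rfl]; omega, by rw [mB, if_pos rfl]; omega, by
      intro h hh
      rcases Nat.eq_zero_or_pos h with h0 | h0
      · subst h0
        simp only [anc]
        norm_num
      · obtain ⟨i, rfl⟩ : ∃ i, h = i + 1 := ⟨h - 1, by omega⟩
        rw [anc_pB hr 0 0 i (by omega), anc_pB hr 0 1 i (by omega), Nat.zero_mod,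
          Nat.mod_eq_of_lt (lt_of_lt_of_le (by norm_num) (qB_two r _))]
        norm_num⟩
  refine ⟨G, hG1, hG2, hG3.trans ?_⟩
  have hlev : ∑ h ∈ range (k + ε + 1), (h : ℝ) * mB N₀ k r h =
      ∑ j ∈ range k, ((j : ℝ) + 1) * qB r (j + 1) + ε * (k + 1) := by
    rw [sum_range_succ', Nat.cast_zero, zero_mul, add_zero]
    have h1 : ∑ h ∈ range k, ((h + 1 : ℕ) : ℝ) * mB N₀ k r (h + 1) =
        ∑ j ∈ range k, ((j : ℝ) + 1) * qB r (j + 1) := by
      refine sum_congr rfl fun h hh => ?_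
      rw [hm1 h hh]
      push_cast
      rfl
    rcases Nat.le_one_iff_eq_zero_or_eq_one.1 hε with he | he
    · subst he
      rw [add_zero, h1]
      simp
    · subst he
      rw [sum_range_succ, h1, mB, if_neg (by omega), if_neg (by omega)]
      push_cast
      ring
  have hcell : ∀ H, H ≤ k → ∑ h ∈ range (H + 1), ∑ a ∈ range (mB N₀ k r h),
      (cnt (mB N₀ k r) (pB k r) h a : ℝ) ^ 2 ≤ N₀ +
      ∑ h ∈ range H, (((N₀ : ℝ) + ∑ j ∈ range (h + 1), (qB r (j + 1) : ℝ)) ^ 2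
              / qB r (h + 1) + qB r (h + 1) / 4) := by
    intro H hH
    rw [sum_range_succ', sum_cnt_zero, add_comm]
    refine add_le_add le_rfl (sum_le_sum fun h hh => ?_)
    rw [mem_range] at hh
    rw [hm1 h (mem_range.2 (by omega))]
    exact sum_cnt_sq hr (h + 1) (by omega) (by omega)
  have c1 := hcell (k - 1 + ε) (by omega)
  have c2 := hcell k le_rfl
  rw [show k - 1 + ε + 1 = k + ε by omega] at c1
  rw [hlev]
  linarith

end

end Pool.Agent.Lib.MP_b0a977_co.Mid
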