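import Pool.Agent.Lib.MP_b0a977_co.Upper
import Pool.Agent.Lib.MP_b0a977_co.Mid.OneSide2

/-!
# The upper bound in the middle range
-/

set_option linter.unusedSectionVars false
set_option linter.unusedVariables false

namespace Pool.Agent.Lib.MP_b0a977_co

open Finset

variable {V : Type*} [Fintype V] [DecidableEq V] {G : SimpleGraph V} {d : ℕ}

namespace Geo

variable (g g' : Geo G d)

theorem upper2 (h : ∀ i ≤ d, g'.v i = g.v (d - i)) (e : ℕ) (hcard : Fintype.card V = d + 1 + e)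
    (he0 : 0 < e) (hde : 12 * e ≤ d) (T : ℕ → ℝ)
    (hT1 : #(g.L d) ≤ e →
      (2 * ∑ x ∈ g.L d, (g.D x : ℝ) + ∑ q ∈ (g.L d).offDiag, (G.dist q.1 q.2 : ℝ))
      ≤ #(g.L d) * (d * (d + 1)) + T #(g.L d))
    (hT2 : #(g'.L (d - 1)) ≤ e → (2 * ∑ x ∈ g'.L (d - 1), (g'.D x : ℝ)
        + ∑ q ∈ (g'.L (d - 1)).offDiag, (G.dist q.1 q.2 : ℝ))
      ≤ #(g'.L (d - 1)) * (d * (d + 1)) + T #(g'.L (d - 1))) :
    ∃ a b : ℕ, a + b ≤ e ∧
    3 * ∑ x, ∑ y, (G.dist x y : ℝ) ≤ d * (d + 1) * (d + 2) + 3 * (e * (d * (d + 1))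
      + T a + T b + 2 * a * b * d) := by
  set X : Finset V := g.Pᶜ with hX
  have hXcard : #X = e := by
    have := card_compl_add_card g.P
    rw [g.card_P, hcard] at this
    rw [hX]; omega
  set A := g.L d with hA
  set B := g'.L (d - 1) with hB
  have hPP := P_eq g g' h
  have hmA : ∀ x, x ∈ A ↔ x ∉ g.P ∧ 2 * g.p x ≤ d := fun x => g.mem_L
  have hmB : ∀ x, x ∈ B ↔ x ∉ g.P ∧ 2 * g'.p x ≤ d - 1 := fun x => by
    rw [hB, g'.mem_L, hPP]
  have hAB : Disjoint A B := by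
    rw [disjoint_left]
    intro x hx hx'
    have h1 := ((hmA x).1 hx).2
    have h2 := ((hmB x).1 hx').2
    have h3 := (dist_v0 g g' h x).1
    omega
  have hmX : ∀ x, x ∈ X ↔ x ∉ g.P := fun x => by rw [hX, mem_compl]
  have hABX : A ∪ B ⊆ X := by
    intro x hx
    rw [mem_union] at hx
    rw [hmX]
    rcases hx with hx | hx
    · exact ((hmA x).1 hx).1
    · exact ((hmB x).1 hx).1
  set M := X \ (A ∪ B) with hM
  have hcM : #M + #(A ∪ B) = e := by
    rw [← hXcard]; exact card_sdiff_add_card_eq_card hABX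
  have hcAB : #(A ∪ B) = #A + #B := card_union_of_disjoint hAB
  -- the middle
  have hmE : ∀ x ∉ g.P, g.m x ≤ e := by
    intro x hx
    have h1 : x ∈ g.L (2 * d) := g.mem_L.2 ⟨hx, by have := g.p_le x; omega⟩
    refine (g.m_le_card h1).trans ?_
    rw [← hXcard]
    apply card_le_card
    intro y hy
    rw [hmX]; exact (g.mem_L.1 hy).1
  have hmE' : ∀ x ∉ g.P, g'.m x ≤ e := by
    intro x hx
    have h1 : x ∈ g'.L (2 * d) := g'.mem_L.2 ⟨by rw [hPP]; exact hx, by have := g'.p_le x; omega⟩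
    refine (g'.m_le_card h1).trans ?_
    rw [← hXcard]
    apply card_le_card
    intro y hy
    rw [hmX]; rw [← hPP]; exact (g'.mem_L.1 hy).1
  have sM : ∀ x ∈ M, 2 * g.D x + 2 * (e * d) ≤ d * (d + 1) := by
    intro x hx
    rw [hM, mem_sdiff, hmX, mem_union, hmA, hmB] at hx
    obtain ⟨hx1, hx2⟩ := hx
    have hp : d < 2 * g.p x := by
      by_contra hcon
      exact hx2 (Or.inl ⟨hx1, by omega⟩)
    have hp' : d ≤ 2 * g'.p x := by
      by_contra hcon
      exact hx2 (Or.inr ⟨hx1, by omega⟩)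
    have h1 := (dist_v0 g g' h x).2
    have h2 := hmE x hx1
    have h3 := hmE' x hx1
    have h4 := g.D_le x
    have h5 : g.p x = g.δ x + g.m x := rfl
    have := mid e d (g.m x) (g'.m x) (g.p x) (g'.p x) (g.δ x) (by exact_mod_cast he0)
      (by exact_mod_cast hde) (by positivity) (by exact_mod_cast h2) (by exact_mod_cast h3)
      (by exact_mod_cast hp) (by exact_mod_cast hp')
      (by have : ((g.p x + g'.p x : ℕ) : ℤ) ≤ ((d + g.m x + g'.m x : ℕ) : ℤ) := by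
            exact_mod_cast h1
          push_cast at this; linarith)
      (by exact_mod_cast h5)
    linarith
  -- splitting the sum
  have hf0 : ∀ x y, (0 : ℤ) ≤ G.dist x y := fun x y => by positivity
  have hfd : ∀ x y, (G.dist x y : ℤ) ≤ d := fun x y => by exact_mod_cast g.hd x y
  have split1 : ∀ f : V → ℤ, ∑ x, f x = ∑ x ∈ g.P, f x + ∑ x ∈ X, f x := fun f =>
    (sum_add_sum_compl g.P f).symm
  have split2 : ∀ f : V → ℤ, ∑ x ∈ X, f x = ∑ x ∈ M, f x + (∑ x ∈ A, f x + ∑ x ∈ B, f x) := by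
    intro f
    rw [← sum_union hAB, hM, sum_sdiff hABX]
  have hD : ∀ x, ∑ y ∈ g.P, (G.dist x y : ℤ) = g.D x := fun x => g.sum_P _
  have hT : ∑ x, ∑ y, (G.dist x y : ℤ) = ∑ x ∈ g.P, ∑ y ∈ g.P, (G.dist x y : ℤ)
      + 2 * ∑ x ∈ X, g.D x + ∑ x ∈ X, ∑ y ∈ X, (G.dist x y : ℤ) := by
    rw [split1]
    simp_rw [split1 (fun y => (G.dist _ y : ℤ)), sum_add_distrib]
    have hc : ∑ x ∈ g.P, ∑ y ∈ X, (G.dist x y : ℤ) = ∑ x ∈ X, g.D x := by
      rw [sum_comm]
      apply sum_congr rfl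
      intro x _
      rw [← hD]
      apply sum_congr rfl
      intro y _
      rw [SimpleGraph.dist_comm]
    rw [hc]
    simp_rw [hD]
    ring
  have hXX : ∑ x ∈ X, ∑ y ∈ X, (G.dist x y : ℤ) ≤ #M * (2 * (e * d))
      + ∑ q ∈ A.offDiag, (G.dist q.1 q.2 : ℤ) + ∑ q ∈ B.offDiag, (G.dist q.1 q.2 : ℤ)
      + 2 * #A * #B * d := by
    have hoff : ∀ S : Finset V, ∑ x ∈ S, ∑ y ∈ S, (G.dist x y : ℤ)
        = ∑ q ∈ S.offDiag, (G.dist q.1 q.2 : ℤ) := by
      intro S
      have h1 := sum_product S S (fun q => (G.dist q.1 q.2 : ℤ))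
      simp only at h1
      rw [← h1, ← diag_union_offDiag S, sum_union (disjoint_diag_offDiag S), sum_diag]
      simp
    have hcross : ∀ S T : Finset V, ∑ x ∈ S, ∑ y ∈ T, (G.dist x y : ℤ) ≤ #S * #T * d := by
      intro S T
      calc _ ≤ ∑ x ∈ S, ∑ y ∈ T, (d : ℤ) := sum_le_sum fun x _ => sum_le_sum fun y _ => hfd x y
        _ = _ := by simp only [sum_const, nsmul_eq_mul]; ring
    rw [split2]
    simp_rw [split2 (fun y => (G.dist _ y : ℤ)), sum_add_distrib]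
    rw [hoff A, hoff B]
    have c1 := hcross M M
    have c2 := hcross M A
    have c3 := hcross M B
    have c4 := hcross A M
    have c5 := hcross B M
    have c6 := hcross A B
    have c7 := hcross B A
    have e1 : (e : ℤ) = #M + #A + #B := by
      rw [hcAB] at hcM
      have : e = #M + #A + #B := by omega
      exact_mod_cast this
    rw [e1]
    have e2 : (0 : ℤ) ≤ #M * #M * d := by positivity
    linarith
  have hMs : 2 * ∑ x ∈ M, g.D x + #M * (2 * (e * d)) ≤ #M * (d * (d + 1)) := by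
    have := sum_le_sum sM
    simp only [sum_add_distrib, sum_const, nsmul_eq_mul, ← mul_sum] at this
    linarith
  have hXD : ∑ x ∈ X, g.D x = ∑ x ∈ M, g.D x + (∑ x ∈ A, g.D x + ∑ x ∈ B, g.D x) := split2 _
  have hPs := g.sum_PP
  have hDB : ∑ x ∈ B, g'.D x = ∑ x ∈ B, g.D x := sum_congr rfl fun x _ => D_eq g g' h x
  have hZ : 3 * ∑ x, ∑ y, (G.dist x y : ℤ) ≤ d * (d + 1) * (d + 2) + 3 * (#M * (d * (d + 1))
      + (2 * ∑ x ∈ A, g.D x + ∑ q ∈ A.offDiag, (G.dist q.1 q.2 : ℤ))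
      + (2 * ∑ x ∈ B, g'.D x + ∑ q ∈ B.offDiag, (G.dist q.1 q.2 : ℤ)) + 2 * #A * #B * d) := by
    rw [hT, hXD, hDB]
    linarith
  have hR : 3 * ∑ x, ∑ y, (G.dist x y : ℝ) ≤ d * (d + 1) * (d + 2) + 3 * (#M * (d * (d + 1))
      + (2 * ∑ x ∈ A, (g.D x : ℝ) + ∑ q ∈ A.offDiag, (G.dist q.1 q.2 : ℝ))
      + (2 * ∑ x ∈ B, (g'.D x : ℝ) + ∑ q ∈ B.offDiag, (G.dist q.1 q.2 : ℝ))
      + 2 * #A * #B * d) := by
    exact_mod_cast hZ
  have hABe : #A + #B ≤ e := by omega
  have e1 : (e : ℝ) = #M + #A + #B := by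
    rw [hcAB] at hcM
    have : e = #M + #A + #B := by omega
    exact_mod_cast this
  have e2 : (e : ℝ) * (d * (d + 1)) = #M * (d * (d + 1)) + #A * (d * (d + 1))
      + #B * (d * (d + 1)) := by rw [e1]; ring
  refine ⟨#A, #B, hABe, ?_⟩
  have t1 := hT1 (by omega)
  have t2 := hT2 (by omega)
  linarith

/-- one side, all sizes -/
theorem one_side_all (c : ℕ) (hc : c ≤ d) (hd : 1 ≤ d) {η : ℝ} (hη : 0 < η) (hη1 : η ≤ 1 / 16)
    (ha : 16 * (#(g.L c) : ℝ) ≤ η * d) :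
    (2 * ∑ x ∈ g.L c, (g.D x : ℝ) + ∑ q ∈ (g.L c).offDiag, (G.dist q.1 q.2 : ℝ))
      ≤ #(g.L c) * (d * (d + 1)) + (2 * #(g.L c) * (#(g.L c) + 1)
        + 2 * (#(g.L c) : ℝ) ^ 4 / (7 * ((1 - 3 * η) * d))) := by
  set a : ℝ := (#(g.L c) : ℝ) with haa
  have hd' : (1 : ℝ) ≤ d := by exact_mod_cast hd
  have hd0 : (0 : ℝ) < d := by linarith
  have ha0 : 0 ≤ a := by positivity
  have hηd : η * d ≤ d / 16 := by nlinarith
  have hD : 0 < (1 - 3 * η) * d := mul_pos (by linarith) hd0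
  rcases lt_or_ge (#(g.L c) ^ 2) d with hsm | hbig
  · -- few vertices
    have hsm' : a ^ 2 < d := by rw [haa]; exact_mod_cast hsm
    have h12 : 12 * #(g.L c) ≤ d + 10 := by
      have : (12 * #(g.L c) : ℝ) ≤ d + 10 := by linarith
      exact_mod_cast this
    have h1 := g.one_side c hc h12
    have h2 : (2 * ∑ x ∈ g.L c, (g.D x : ℝ) + ∑ q ∈ (g.L c).offDiag, (G.dist q.1 q.2 : ℝ))
      ≤ #(g.L c) * (d * (d + 1)) + 2 * #(g.L c) * (#(g.L c) + 1)
        + #((g.L c).filter fun x => 1 ≤ g.δ x)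
          * ((#(g.L c) : ℝ) ^ 2 + 24 * #(g.L c) - 8 - 2 * d) := by exact_mod_cast h1
    rw [← haa] at h2
    have h3 : (#((g.L c).filter fun x => 1 ≤ g.δ x) : ℝ) * (a ^ 2 + 24 * a - 8 - 2 * d) ≤ 0 :=
      mul_nonpos_of_nonneg_of_nonpos (by positivity) (by linarith)
    have h4 : 0 ≤ 2 * a ^ 4 / (7 * ((1 - 3 * η) * d)) := by positivity
    linarith
  · have hbig' : (d : ℝ) ≤ a ^ 2 := by rw [haa]; exact_mod_cast hbig
    obtain ⟨X, hX⟩ : ∃ X, X = 4 * #(g.L c) ^ 2 / d + 1 := ⟨_, rfl⟩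
    have hX1 : 4 * a ^ 2 ≤ X * d := by
      have : 4 * #(g.L c) ^ 2 ≤ X * d := by
        rw [hX, add_mul, one_mul]
        exact (Nat.lt_div_mul_add (a := 4 * #(g.L c) ^ 2) (b := d) hd).le
      rw [haa]; exact_mod_cast this
    have hX2 : (X : ℝ) * d ≤ 5 * a ^ 2 := by
      have : X * d ≤ 4 * #(g.L c) ^ 2 + d := by
        rw [hX, add_mul, one_mul]
        exact Nat.add_le_add_right (Nat.div_mul_le_self (4 * #(g.L c) ^ 2) d) d
      have : (X : ℝ) * d ≤ 4 * a ^ 2 + d := by rw [haa]; exact_mod_cast this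
      linarith
    have had : a ≤ d / 256 := by linarith
    have hXa : (X : ℝ) ≤ a := by
      have h3 : (X : ℝ) * d ≤ a * d := by nlinarith
      exact le_of_mul_le_mul_right h3 hd0
    have hX0 : 0 < X := by rw [hX]; exact Nat.succ_pos _
    have hXd : X ≤ d := by
      have : (X : ℝ) ≤ d := by linarith
      exact_mod_cast this
    have key := g.one_side2 c hc hD (s := η * d) X hX0 hXd
    rw [← haa] at key
    have hηD : 3 * η * (d * X) ≤ 3 / 16 * (d * X) :=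
      mul_le_mul_of_nonneg_right (by linarith) (by positivity)
    have := key (by linarith)
      (by
        have : 2 * ((1 - 3 * η) * d) * X = 2 * (X * d) - 2 * (3 * η * (d * X)) := by ring
        rw [this]; nlinarith)
      (by
        have h4 : (1 - 3 * η) * d * X / 2 ≤ X * d / 2 := by nlinarith [mul_pos hη hd0]
        have h5 : 4 * a * a ≤ η * d * a := mul_le_mul_of_nonneg_right (by linarith) ha0
        nlinarith)
      (by
        have : (1 - 3 * η) * d + η * d = d - 2 * (η * d) := by ring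
        rw [this]; linarith)
      hX1 (by linarith) (by linarith)
    linarith

end Geo

lemma balance {a b e d D : ℝ} (ha : 0 ≤ a) (hb : 0 ≤ b) (hab : a + b ≤ e) (hd : 0 < d) (hD : 0 < D)
    (h : e ^ 2 ≤ 2 * d * D) : 2 * a * b * d + 2 * a ^ 4 / (7 * D) + 2 * b ^ 4 / (7 * D)
      ≤ d * e ^ 2 / 2 + e ^ 4 / (28 * D) := by
  set s := a + b with hs
  set t := a - b with ht
  have hs0 : 0 ≤ s := by linarith
  have e1 : 2 * a * b * d + 2 * a ^ 4 / (7 * D) + 2 * b ^ 4 / (7 * D)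
      = d * (s ^ 2 - t ^ 2) / 2 + (s ^ 4 + 6 * s ^ 2 * t ^ 2 + t ^ 4) / (28 * D) := by
    rw [hs, ht]
    field_simp
    ring
  have hts : t ^ 2 ≤ s ^ 2 := by rw [hs, ht]; nlinarith [mul_nonneg ha hb]
  have hse : s ^ 2 ≤ e ^ 2 := pow_le_pow_left₀ hs0 hab 2
  have hse4 : s ^ 4 ≤ e ^ 4 := pow_le_pow_left₀ hs0 hab 4
  have h1 : (6 * s ^ 2 * t ^ 2 + t ^ 4) / (28 * D) ≤ d * t ^ 2 / 2 := by
    rw [div_le_iff₀ (by positivity)]
    have h2 : t ^ 4 ≤ s ^ 2 * t ^ 2 := by nlinarith [sq_nonneg t]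
    have h3 : s ^ 2 * t ^ 2 ≤ 2 * d * D * t ^ 2 :=
      mul_le_mul_of_nonneg_right (hse.trans h) (sq_nonneg t)
    nlinarith
  have h4 : s ^ 4 / (28 * D) ≤ e ^ 4 / (28 * D) := by gcongr
  have h5 : (s ^ 4 + 6 * s ^ 2 * t ^ 2 + t ^ 4) / (28 * D)
      = s ^ 4 / (28 * D) + (6 * s ^ 2 * t ^ 2 + t ^ 4) / (28 * D) := by ring
  rw [e1, h5]
  nlinarith

/-- the upper bound for all graphs of diameter `d` -/
theorem upper_diam2 (hc : G.Connected) (hdiam : G.diam = d) (e : ℕ)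
    (hcard : Fintype.card V = d + 1 + e) (he0 : 0 < e) {η : ℝ} (hη : 0 < η) (hη1 : η ≤ 1 / 16)
    (he : 16 * (e : ℝ) ≤ η * d) :
    3 * ∑ x, ∑ y, (G.dist x y : ℝ) ≤ d * (d + 1) * (d + 2) + 3 * (e * (d * (d + 1))
      + 2 * e * (e + 1) + d * e ^ 2 / 2 + e ^ 4 / (28 * ((1 - 3 * η) * d))) := by
  have : Nonempty V := hc.nonempty
  have htop : G.ediam ≠ ⊤ := SimpleGraph.connected_iff_ediam_ne_top.1 hc
  have hd : ∀ x y, G.dist x y ≤ d := fun x y => hdiam ▸ SimpleGraph.dist_le_diam htop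
  obtain ⟨x0, y0, h0⟩ := SimpleGraph.exists_dist_eq_diam (G := G)
  rw [hdiam] at h0
  obtain ⟨q, hq⟩ := hc.exists_walk_length_eq_dist x0 y0
  rw [h0] at hq
  have hle : ∀ i k, i + k ≤ d → G.dist (q.getVert i) (q.getVert (i + k)) ≤ k := by
    intro i k
    induction k with
    | zero => intro _; simp
    | succ k ih =>
      intro hk
      have h1 := ih (by omega)
      have h2 : G.Adj (q.getVert (i + k)) (q.getVert (i + k + 1)) :=
        q.adj_getVert_succ (by omega)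
      have h3 : G.dist (q.getVert (i + k)) (q.getVert (i + k + 1)) = 1 :=
        SimpleGraph.dist_eq_one_iff_adj.2 h2
      have h4 := hc.dist_triangle (u := q.getVert i) (v := q.getVert (i + k))
        (w := q.getVert (i + k + 1))
      rw [← Nat.add_assoc]
      omega
  have h0' : q.getVert 0 = x0 := q.getVert_zero
  have hl : q.getVert d = y0 := by rw [← hq]; exact q.getVert_length
  have hv : ∀ i j, i ≤ j → j ≤ d → G.dist (q.getVert i) (q.getVert j) = j - i := by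
    intro i j hij hj
    have h1 := hle i (j - i) (by omega)
    rw [show i + (j - i) = j by omega] at h1
    have h2 := hle 0 i (by omega)
    rw [Nat.zero_add, h0'] at h2
    have h3 := hle j (d - j) (by omega)
    rw [show j + (d - j) = d by omega, hl] at h3
    have h4 := hc.dist_triangle (u := x0) (v := q.getVert i) (w := y0)
    have h5 := hc.dist_triangle (u := q.getVert i) (v := q.getVert j) (w := y0)
    omega
  obtain ⟨g, hg⟩ := exists_geo hc hd q.getVert hv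
  obtain ⟨g', hg'⟩ := exists_geo hc hd (fun i => q.getVert (d - i)) (by
    intro i j hij hj
    rw [SimpleGraph.dist_comm, hv _ _ (by omega) (by omega)]
    omega)
  have he1 : (1 : ℝ) ≤ e := by exact_mod_cast he0
  have hd0r : (0 : ℝ) < d := by
    by_contra hcon
    have : (d : ℝ) ≤ 0 := not_lt.1 hcon
    nlinarith
  have hd1 : 1 ≤ d := by exact_mod_cast hd0r
  have hηd : η * d ≤ d / 16 := by nlinarith
  have hD : 0 < (1 - 3 * η) * d := mul_pos (by linarith) hd0r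
  have h12 : 12 * e ≤ d := by
    have : (12 * e : ℝ) ≤ d := by linarith
    exact_mod_cast this
  obtain ⟨a, b, hab, hfin⟩ := g.upper2 g' (by
    intro i _
    rw [hg, hg']) e hcard he0 h12
    (fun m => 2 * m * (m + 1) + 2 * (m : ℝ) ^ 4 / (7 * ((1 - 3 * η) * d)))
    (fun hle => g.one_side_all d le_rfl hd1 hη hη1
      (le_trans (by gcongr) he))
    (fun hle => g'.one_side_all (d - 1) (by omega) hd1 hη hη1
      (le_trans (by gcongr) he))
  have hab' : (a : ℝ) + b ≤ e := by exact_mod_cast hab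
  have ha0 : (0 : ℝ) ≤ a := by positivity
  have hb0 : (0 : ℝ) ≤ b := by positivity
  have hbal := balance ha0 hb0 hab' hd0r hD (by
    have h1 : (e : ℝ) ≤ d := by linarith
    have h2 : (e : ℝ) ^ 2 ≤ d ^ 2 := pow_le_pow_left₀ (by positivity) h1 2
    have h3 : 2 * d * ((1 - 3 * η) * d) = 2 * (d : ℝ) ^ 2 - 6 * (η * d) * d := by ring
    rw [h3]
    nlinarith)
  have hsq : 2 * (a : ℝ) * (a + 1) + 2 * b * (b + 1) ≤ 2 * e * (e + 1) := by
    nlinarith [mul_nonneg ha0 hb0]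
  refine hfin.trans ?_
  nlinarith

end Pool.Agent.Lib.MP_b0a977_co
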